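import Pool.Agent.H73.VG.PRD

/-!
# MP_6803f2_an: bounds for `θ (H y + s) * w y`, uniform in `s`
-/

open MeasureTheory Set Filter Topology
open scoped ENNReal NNReal ContDiff ComplexConjugate

namespace Pool.Agent.H73.VG

open Pool.Agent.H95.VG

variable {n : ℕ}

theorem smooth_ext {h : V n → ℝ} (hh : ContDiffOn ℝ ∞ h (Metric.ball (0 : V n) 2)) :
    ∃ H : V n → ℝ, ContDiff ℝ ∞ H ∧ HasCompactSupport H ∧
      ∀ y ∈ Metric.ball (0 : V n) (7 / 4), H y = h y := by
  let b : ContDiffBump (0 : V n) := ⟨7 / 4, 15 / 8, by norm_num, by norm_num⟩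
  have hb1 : ∀ y ∈ Metric.ball (0 : V n) (7 / 4), b y = 1 := fun y hy =>
    b.one_of_mem_closedBall (Metric.ball_subset_closedBall hy)
  have hb0 : ∀ y, y ∉ Metric.ball (0 : V n) (15 / 8) → b y = 0 := by
    intro y hy
    have h1 : y ∉ Function.support b := by
      rw [b.support_eq]
      exact hy
    exact Function.notMem_support.1 h1
  refine ⟨fun y => b y * h y, ?_, ?_, ?_⟩
  · rw [contDiff_iff_contDiffAt]
    intro y
    by_cases hy : y ∈ Metric.ball (0 : V n) 2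
    · exact b.contDiff.contDiffAt.mul (hh.contDiffAt (Metric.isOpen_ball.mem_nhds hy))
    · have h1 : (fun y => b y * h y) =ᶠ[𝓝 y] fun _ => 0 := by
        have h2 : (Metric.closedBall (0 : V n) (15 / 8))ᶜ ∈ 𝓝 y := by
          apply Metric.isClosed_closedBall.isOpen_compl.mem_nhds
          intro h3
          apply hy
          rw [Metric.mem_closedBall] at h3
          rw [Metric.mem_ball]
          linarith
        filter_upwards [h2] with z hz
        rw [hb0 z (fun h3 => hz (Metric.ball_subset_closedBall h3)), zero_mul]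
      exact contDiffAt_const.congr_of_eventuallyEq h1
  · apply HasCompactSupport.intro (isCompact_closedBall (0 : V n) (15 / 8))
    intro y hy
    rw [hb0 y (fun h3 => hy (Metric.ball_subset_closedBall h3)), zero_mul]
  · intro y hy
    change b y * h y = h y
    rw [hb1 y hy, one_mul]

theorem iter_bound {H : V n → ℝ} (hH : ContDiff ℝ ∞ H) (hc : HasCompactSupport H) :
    ∃ D : ℝ, 1 ≤ D ∧ ∀ i ≤ 2, ∀ y, ‖iteratedFDeriv ℝ i H y‖ ≤ D := by
  have h1 : ∀ i : ℕ, ∃ C, ∀ y, ‖iteratedFDeriv ℝ i H y‖ ≤ C := fun i =>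
    (hc.iteratedFDeriv (𝕜 := ℝ) i).exists_bound_of_continuous
      (hH.continuous_iteratedFDeriv (WithTop.coe_le_coe.2 le_top))
  choose C hC using h1
  refine ⟨max 1 (max (C 0) (max (C 1) (C 2))), le_max_left _ _, fun i hi y => ?_⟩
  refine (hC i y).trans ?_
  interval_cases i
  · exact (le_max_left _ _).trans (le_max_right _ _)
  · exact ((le_max_left _ _).trans (le_max_right _ _)).trans (le_max_right _ _)
  · exact ((le_max_right _ _).trans (le_max_right _ _)).trans (le_max_right _ _)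

theorem theta_bound {θ : ℝ → ℝ} (C : ℝ)
    (hb : ∀ s, |θ s| ≤ C ∧ |deriv θ s| ≤ C ∧ |deriv (deriv θ) s| ≤ C) :
    ∀ i ≤ 2, ∀ s, ‖iteratedFDeriv ℝ i θ s‖ ≤ C := by
  intro i hi s
  rw [norm_iteratedFDeriv_eq_norm_iteratedDeriv, Real.norm_eq_abs]
  interval_cases i
  · rw [iteratedDeriv_zero]
    exact (hb s).1
  · rw [iteratedDeriv_one]
    exact (hb s).2.1
  · rw [iteratedDeriv_succ, iteratedDeriv_one]
    exact (hb s).2.2

theorem comp_bound {θ : ℝ → ℝ} (hθ : ContDiff ℝ 2 θ) (C : ℝ)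
    (hb : ∀ s, |θ s| ≤ C ∧ |deriv θ s| ≤ C ∧ |deriv (deriv θ) s| ≤ C)
    {H : V n → ℝ} (hH : ContDiff ℝ ∞ H) (hc : HasCompactSupport H) :
    ∃ B : ℝ, 0 ≤ B ∧ ∀ i ≤ 2, ∀ (s : ℝ) (y : V n),
      ‖iteratedFDeriv ℝ i (fun y => θ (H y + s)) y‖ ≤ B := by
  obtain ⟨D, hD1, hD⟩ := iter_bound hH hc
  have hC0 : 0 ≤ C := (abs_nonneg _).trans (hb 0).1
  have hH2 : ContDiff ℝ 2 H := hH.of_le (WithTop.coe_le_coe.2 le_top)
  refine ⟨2 * C * D ^ 2, by positivity, fun i hi s y => ?_⟩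
  have hθs : ContDiff ℝ 2 (fun x => θ (x + s)) := hθ.comp (contDiff_id.add contDiff_const)
  have h1 := norm_iteratedFDeriv_comp_le (n := i) (N := 2) hθs hH2 (by exact_mod_cast hi) y
    (C := C) (D := D) (by
      intro j hj
      rw [iteratedFDeriv_comp_add_right]
      exact theta_bound C hb j (hj.trans hi) _) (by
      intro j hj1 hj2
      refine (hD j (hj2.trans hi) y).trans ?_
      calc D = D ^ 1 := (pow_one D).symm
        _ ≤ D ^ j := pow_le_pow_right₀ hD1 hj1)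
  refine h1.trans ?_
  have h2 : (i.factorial : ℝ) ≤ 2 := by
    have : i.factorial ≤ 2 := by
      interval_cases i <;> decide
    exact_mod_cast this
  have h3 : D ^ i ≤ D ^ 2 := pow_le_pow_right₀ hD1 hi
  gcongr

theorem q_bound {θ : ℝ → ℝ} (hθ : ContDiff ℝ 2 θ) (C : ℝ)
    (hb : ∀ s, |θ s| ≤ C ∧ |deriv θ s| ≤ C ∧ |deriv (deriv θ) s| ≤ C)
    {H w : V n → ℝ} (hH : ContDiff ℝ ∞ H) (hc : HasCompactSupport H)
    (hw : ContDiff ℝ ∞ w) (hwc : HasCompactSupport w) :
    (∀ s, ContDiff ℝ 2 (fun y => θ (H y + s) * w y)) ∧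
    ∃ B : ℝ, ∀ (y : V n) (s : ℝ), |θ (H y + s) * w y| ≤ B ∧
      ‖fderiv ℝ (fun y => θ (H y + s) * w y) y‖ ≤ B ∧
      ‖fderiv ℝ (fderiv ℝ (fun y => θ (H y + s) * w y)) y‖ ≤ B := by
  obtain ⟨B1, hB10, hB1⟩ := comp_bound hθ C hb hH hc
  obtain ⟨D, hD1, hD⟩ := iter_bound hw hwc
  have hH2 : ContDiff ℝ 2 H := hH.of_le (WithTop.coe_le_coe.2 le_top)
  have hw2 : ContDiff ℝ 2 w := hw.of_le (WithTop.coe_le_coe.2 le_top)
  have hcd : ∀ s, ContDiff ℝ 2 (fun y => θ (H y + s)) := fun s =>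
    hθ.comp (hH2.add contDiff_const)
  refine ⟨fun s => (hcd s).mul hw2, 4 * (B1 * D), fun y s => ?_⟩
  have key : ∀ i ≤ 2, ‖iteratedFDeriv ℝ i (fun y => θ (H y + s) * w y) y‖ ≤ 4 * (B1 * D) := by
    intro i hi
    refine (norm_iteratedFDeriv_mul_le (N := 2) (hcd s) hw2 y (n := i)
      (by exact_mod_cast hi)).trans ?_
    have h1 : ∀ j ∈ Finset.range (i + 1), ((i.choose j : ℕ) : ℝ) *
        ‖iteratedFDeriv ℝ j (fun y => θ (H y + s)) y‖ * ‖iteratedFDeriv ℝ (i - j) w y‖ ≤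
        ((i.choose j : ℕ) : ℝ) * (B1 * D) := by
      intro j hj
      rw [Finset.mem_range] at hj
      have h2 := hB1 j (by omega) s y
      have h3 := hD (i - j) (by omega) y
      rw [mul_assoc]
      gcongr
    refine (Finset.sum_le_sum h1).trans ?_
    rw [← Finset.sum_mul]
    have h4 : ∑ j ∈ Finset.range (i + 1), ((i.choose j : ℕ) : ℝ) ≤ 4 := by
      have h5 : ∑ j ∈ Finset.range (i + 1), i.choose j = 2 ^ i := Nat.sum_range_choose i
      have h6 : 2 ^ i ≤ 4 := by interval_cases i <;> decide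
      rw [← h5] at h6
      exact_mod_cast h6
    exact mul_le_mul_of_nonneg_right h4 (by positivity)
  refine ⟨?_, ?_, ?_⟩
  · have := key 0 (by norm_num)
    rw [norm_iteratedFDeriv_zero] at this
    exact this
  · have := key 1 (by norm_num)
    rw [norm_iteratedFDeriv_one] at this
    exact this
  · have := key 2 le_rfl
    rw [← norm_iteratedFDeriv_fderiv, norm_iteratedFDeriv_one] at this
    exact this

end Pool.Agent.H73.VG
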