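import Pool.Agent.H95.VG.Targets1
import Pool.Agent.H95.VG.Targets3
import Pool.Agent.H73.VG.QB

/-!
# MP_6803f2_an, module IDN (identity for functions of `η`)
-/

open MeasureTheory Set Filter Topology
open scoped ENNReal NNReal ContDiff ComplexConjugate

namespace Pool.Agent.H73.VG

open Pool.Agent.H95.VG

variable {n : ℕ}

theorem dr_congr {g g' : V n → ℝ} {y : V n} (h : g =ᶠ[𝓝 y] g') (v : V n) :
    dr g y v = dr g' y v := by
  unfold dr
  rw [h.fderiv_eq]

theorem ge_congr {g g' : V n → ℝ} {y : V n} (h : g =ᶠ[𝓝 y] g') (v : V n) :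
    ge g y v = ge g' y v := by
  unfold ge
  rw [dr_congr h]

theorem lev_congr {g g' : V n → ℝ} {y : V n} (h : g =ᶠ[𝓝 y] g') (v : V n) :
    lev g y v = lev g' y v := by
  have h2 : ∀ u : V n, (fun x => fderiv ℝ g x u) =ᶠ[𝓝 y] fun x => fderiv ℝ g' x u := by
    intro u
    filter_upwards [h.eventually_nhds] with x hx
    have he : g =ᶠ[𝓝 x] g' := hx
    rw [he.fderiv_eq]
  unfold lev
  rw [(h2 v).fderiv_eq, (h2 (Complex.I • v)).fderiv_eq]

theorem lev_zero' (y v : V n) : lev (fun _ => (0 : ℝ)) y v = 0 := by
  unfold lev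
  simp

theorem dr_zero' (y v : V n) : dr (fun _ => (0 : ℝ)) y v = 0 := by
  unfold dr
  simp

/-- the `∑ k` of the Levi forms of `θ (H y + s) * w y` -/
theorem lev_q {θ : ℝ → ℝ} (hθ : ContDiff ℝ 2 θ) {H w : V n → ℝ} (hH : ContDiff ℝ ∞ H)
    (hw : ContDiff ℝ ∞ w) (s : ℝ) (y : V n) :
    ∑ k, lev (fun y => θ (H y + s) * w y) y (ek k) =
      θ (H y + s) * ∑ k, lev w y (ek k) +
      deriv θ (H y + s) * (∑ k, (w y * lev H y (ek k) +
        2 * (dr H y (ek k) * conj (dr w y (ek k))).re)) +
      deriv (deriv θ) (H y + s) * (w y * ∑ k, ge H y (ek k)) := by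
  have hH2 : ContDiff ℝ 2 H := hH.of_le (WithTop.coe_le_coe.2 le_top)
  have hw2 : ContDiff ℝ 2 w := hw.of_le (WithTop.coe_le_coe.2 le_top)
  have hHs : ContDiff ℝ 2 (fun y => H y + s) := hH2.add contDiff_const
  have hfd : ∀ x, fderiv ℝ (fun y => H y + s) x = fderiv ℝ H x := fun x => by
    rw [fderiv_add_const]
  have hdr : ∀ v, dr (fun y => H y + s) y v = dr H y v := by
    intro v
    unfold dr
    rw [hfd]
  have hge : ∀ v, ge (fun y => H y + s) y v = ge H y v := by
    intro v
    unfold ge
    rw [hdr]
  have hlev : ∀ v, lev (fun y => H y + s) y v = lev H y v := by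
    intro v
    unfold lev
    simp only [hfd]
  have key : ∀ k, lev (fun y => θ (H y + s) * w y) y (ek k) =
      θ (H y + s) * lev w y (ek k) + deriv θ (H y + s) * (w y * lev H y (ek k) +
        2 * (dr H y (ek k) * conj (dr w y (ek k))).re) +
      deriv (deriv θ) (H y + s) * (w y * ge H y (ek k)) := by
    intro k
    have hcomp : ContDiffAt ℝ 2 (fun y => θ (H y + s)) y := (hθ.comp hHs).contDiffAt
    have e1 := (prd n y (ek k)).2.2.1 (fun y => θ (H y + s)) w hcomp hw2.contDiffAt
    have e2 := (prd n y (ek k)).2.2.2.2 θ (fun y => H y + s) hθ.contDiffAt hHs.contDiffAt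
    have e3 := (prd n y (ek k)).2.2.2.1 θ (fun y => H y + s)
      (hθ.contDiffAt.differentiableAt (by norm_num)) (hHs.contDiffAt.differentiableAt (by norm_num))
    rw [e1, e2, e3, hdr, hge, hlev]
    have e4 : ((((deriv θ (H y + s) : ℝ) : ℂ) * dr H y (ek k)) * conj (dr w y (ek k))).re =
        deriv θ (H y + s) * (dr H y (ek k) * conj (dr w y (ek k))).re := by
      rw [mul_assoc, Complex.re_ofReal_mul]
    rw [e4]
    ring
  rw [Finset.sum_congr rfl (fun k _ => key k), Finset.sum_add_distrib, Finset.sum_add_distrib,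
    ← Finset.mul_sum, ← Finset.mul_sum, ← Finset.mul_sum, ← Finset.mul_sum]

theorem idn (hOAO : T_OAO) (hSYM : T_SYM) : T_IDN := by
  intro n X _ _ _ ι _ A w f I h η hw hS hC hE θ φ hθ hθb hφ hφc hφs
  obtain ⟨C, hCb⟩ := hθb
  have hms : MeasurableSet (Dp n \ I) := hS.opn.measurableSet
  have hOm : ∀ a, MeasurableSet (Oa A f I a) := fun a => (hOAO n X ι A f I hS a).1.measurableSet
  have hOs : ∀ a, Oa A f I a ⊆ Dp n \ I := fun a z hz => hz.1
  have hcomp : ∀ a, HasCompactSupport (w a) := fun a =>
    HasCompactSupport.of_support_subset_isCompact (isCompact_closedBall (0 : V n) (3 / 2))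
      (fun y hy => hw.supp a y hy)
  have hHex := fun a => smooth_ext (hC.smooth a)
  choose H hHs hHc hHe using hHex
  -- local agreement
  have hloc : ∀ a, ∀ y ∈ Metric.closedBall (0 : V n) (3 / 2), H a =ᶠ[𝓝 y] h a := by
    intro a y hy
    have : Metric.ball (0 : V n) (7 / 4) ∈ 𝓝 y :=
      Metric.isOpen_ball.mem_nhds (Metric.closedBall_subset_ball (by norm_num) hy)
    filter_upwards [this] with y' hy'
    exact hHe a y' hy'
  have hwz : ∀ a, ∀ y ∉ Metric.closedBall (0 : V n) (3 / 2), w a =ᶠ[𝓝 y] fun _ => 0 := by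
    intro a y hy
    filter_upwards [Metric.isClosed_closedBall.isOpen_compl.mem_nhds hy] with y' hy'
    by_contra hne
    exact hy' (hw.supp a y' hne)
  let σ : ι → V n → ℝ := fun a z => η z - h a (FF A f a z)
  let q : ι → V n → ℝ → ℝ := fun a y s => θ (H a y + s) * w a y
  have hqb := fun a => q_bound hθ C hCb (hHs a) (hHc a) (hw.smooth a) (hcomp a)
  have sym := fun (a : ι) (k : Fin n) => hSYM n X ι A f I hS a k φ (q a) (σ a)
    (3 / 2) (by norm_num) hφ hφc hφs (hE.loc a)
    (hqb a).1 (fun y s hy => hw.supp a y (right_ne_zero_of_mul hy)) (hqb a).2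
  -- values of `q`
  have hq : ∀ a, ∀ z, q a (FF A f a z) (σ a z) = θ (η z) * w a (FF A f a z) := by
    intro a z
    by_cases hy : FF A f a z ∈ Metric.closedBall (0 : V n) (3 / 2)
    · change θ (H a (FF A f a z) + (η z - h a (FF A f a z))) * w a (FF A f a z) = _
      rw [(hloc a _ hy).eq_of_nhds, add_sub_cancel]
    · have h0 : w a (FF A f a z) = 0 := (hwz a _ hy).eq_of_nhds
      change θ (H a (FF A f a z) + (η z - h a (FF A f a z))) * w a (FF A f a z) = _
      rw [h0, mul_zero, mul_zero]
  have hLL : ∀ z ∈ Dp n \ I, θ (η z) * LL A w f φ z = ∑ a, ∑ k, (Oa A f I a).indicator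
      (fun z => q a (FF A f a z) (σ a z) * lev φ z (cf (FF A f a) k z)) z := by
    intro z hz
    unfold LL
    rw [Finset.mul_sum]
    refine Finset.sum_congr rfl (fun a _ => ?_)
    rw [← mul_assoc, Finset.mul_sum]
    refine Finset.sum_congr rfl (fun k _ => ?_)
    by_cases hO : z ∈ Oa A f I a
    · rw [indicator_of_mem hO, Wt, indicator_of_mem hO.2.1, hq]
      rfl
    · rw [indicator_of_notMem hO]
      by_cases hs : f z ∈ (A.φ a).source
      · have : w a (A.φ a (f z)) = 0 := by
          by_contra hne
          apply hO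
          refine ⟨hz, hs, ?_⟩
          have := hw.supp a _ hne
          exact Metric.closedBall_subset_ball (by norm_num) this
        rw [Wt, indicator_of_mem hs, this, mul_zero, zero_mul]
      · rw [Wt, indicator_of_notMem hs, mul_zero, zero_mul]
  have hint : ∀ a k, Integrable ((Oa A f I a).indicator
      (fun z => q a (FF A f a z) (σ a z) * lev φ z (cf (FF A f a) k z))) := fun a k =>
    (integrable_indicator_iff (hOm a)).2 (sym a k).1
  have hint2 : ∀ a k, Integrable ((Oa A f I a).indicator
      (fun z => φ z * ‖(jac (FF A f a) z).det‖ ^ 2 *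
        lev (fun y => q a y (σ a z)) (FF A f a z) (ek k))) := fun a k =>
    (integrable_indicator_iff (hOm a)).2 (sym a k).2.1
  -- the pointwise identity for the right hand side
  have hR : ∀ z ∈ Dp n \ I, φ z * (deriv θ (η z) * PB A f (k1 w h) z
      + deriv (deriv θ) (η z) * PB A f (k2 w h) z) = ∑ a, ∑ k, (Oa A f I a).indicator
      (fun z => φ z * ‖(jac (FF A f a) z).det‖ ^ 2 *
        lev (fun y => q a y (σ a z)) (FF A f a z) (ek k)) z := by
    intro z hz
    obtain ⟨b, hb1, hb2⟩ := A.cover (f z)
    have hg := hw.gau b (f z) hb1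
    have h2 : ∀ a, ∑ k, (Oa A f I a).indicator
        (fun z => φ z * ‖(jac (FF A f a) z).det‖ ^ 2 *
          lev (fun y => q a y (σ a z)) (FF A f a z) (ek k)) z =
        (φ z * θ (η z) * ‖(jac (FF A f b) z).det‖ ^ 2) * ((A.φ a).source).indicator
          (fun x => tj A b a x * ∑ k, lev (w a) (A.φ a x) (ek k)) (f z) +
        φ z * (deriv θ (η z) * (Wt A (k1 w h) a (f z) * ‖(jac (FF A f a) z).det‖ ^ 2) +
          deriv (deriv θ) (η z) * (Wt A (k2 w h) a (f z) * ‖(jac (FF A f a) z).det‖ ^ 2)) := by
      intro a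
      by_cases hs : f z ∈ (A.φ a).source
      · rw [indicator_of_mem hs, Wt, Wt, indicator_of_mem hs, indicator_of_mem hs]
        by_cases hy : A.φ a (f z) ∈ Metric.closedBall (0 : V n) (3 / 2)
        · have hO : z ∈ Oa A f I a := ⟨hz, hs, Metric.closedBall_subset_ball (by norm_num) hy⟩
          simp only [indicator_of_mem hO]
          rw [← Finset.mul_sum]
          have hj := (hOAO n X ι A f I hS a).2.2.2.2.2 b z hz hs hb1
          have hl0 : H a =ᶠ[𝓝 (FF A f a z)] h a := hloc a _ hy
          have hl := lev_q hθ (hHs a) (hw.smooth a) (σ a z) (FF A f a z)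
          have hη : H a (FF A f a z) + σ a z = η z := by
            change H a (FF A f a z) + (η z - h a (FF A f a z)) = η z
            rw [hl0.eq_of_nhds]
            ring
          have hk1 : ∑ k, (w a (FF A f a z) * lev (H a) (FF A f a z) (ek k) +
              2 * (dr (H a) (FF A f a z) (ek k) * conj (dr (w a) (FF A f a z) (ek k))).re) =
              k1 w h a (A.φ a (f z)) := by
            unfold k1
            refine Finset.sum_congr rfl (fun k _ => ?_)
            rw [lev_congr hl0, dr_congr hl0]
            rfl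
          have hk2 : w a (FF A f a z) * ∑ k, ge (H a) (FF A f a z) (ek k) =
              k2 w h a (A.φ a (f z)) := by
            unfold k2
            congr 1
            refine Finset.sum_congr rfl (fun k _ => ?_)
            rw [ge_congr hl0]
            rfl
          rw [hη, hk1, hk2] at hl
          have hl' : ∑ k, lev (fun y => q a y (σ a z)) (FF A f a z) (ek k) =
            θ (η z) * ∑ k, lev (w a) (FF A f a z) (ek k) +
            deriv θ (η z) * k1 w h a (A.φ a (f z)) +
            deriv (deriv θ) (η z) * k2 w h a (A.φ a (f z)) := hl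
          rw [hl', hj, Matrix.det_mul, norm_mul, mul_pow]
          unfold tj FF
          ring
        · have hz1 : ∑ k, lev (w a) (A.φ a (f z)) (ek k) = 0 :=
            Finset.sum_eq_zero (fun k _ => by rw [lev_congr (hwz a _ hy), lev_zero'])
          have hw0 : w a (A.φ a (f z)) = 0 := (hwz a _ hy).eq_of_nhds
          have hz2 : k1 w h a (A.φ a (f z)) = 0 := by
            unfold k1
            refine Finset.sum_eq_zero (fun k _ => ?_)
            rw [dr_congr (hwz a _ hy), dr_zero', hw0]
            simp
          have hz3 : k2 w h a (A.φ a (f z)) = 0 := by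
            unfold k2
            rw [hw0, zero_mul]
          have hz4 : ∀ k, lev (fun y => q a y (σ a z)) (FF A f a z) (ek k) = 0 := by
            intro k
            have he : (fun y => q a y (σ a z)) =ᶠ[𝓝 (FF A f a z)] fun _ => 0 := by
              have h3 : w a =ᶠ[𝓝 (FF A f a z)] fun _ => 0 := hwz a _ hy
              filter_upwards [h3] with y hy'
              change θ (H a y + σ a z) * w a y = 0
              rw [hy', mul_zero]
            rw [lev_congr he, lev_zero']
          rw [hz1, hz2, hz3]
          have hsum : ∑ k, (Oa A f I a).indicator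
              (fun z => φ z * ‖(jac (FF A f a) z).det‖ ^ 2 *
                lev (fun y => q a y (σ a z)) (FF A f a z) (ek k)) z = 0 := by
            refine Finset.sum_eq_zero (fun k _ => ?_)
            by_cases hO : z ∈ Oa A f I a
            · rw [indicator_of_mem hO, hz4, mul_zero]
            · rw [indicator_of_notMem hO]
          rw [hsum]
          ring
      · have hO : z ∉ Oa A f I a := fun h => hs h.2.1
        simp only [Wt, indicator_of_notMem hO, indicator_of_notMem hs, Finset.sum_const_zero,
          mul_zero, zero_mul, add_zero]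
    rw [Finset.sum_congr rfl (fun a _ => h2 a), Finset.sum_add_distrib, ← Finset.mul_sum, hg,
      mul_zero, zero_add, ← Finset.mul_sum, Finset.sum_add_distrib, ← Finset.mul_sum,
      ← Finset.mul_sum]
    rfl
  have hI1 : IntegrableOn (fun z => ∑ a, ∑ k, (Oa A f I a).indicator
      (fun z => q a (FF A f a z) (σ a z) * lev φ z (cf (FF A f a) k z)) z) (Dp n \ I) :=
    (integrable_finsetSum _ (fun a _ => integrable_finsetSum _
      (fun k _ => hint a k))).integrableOn
  have hI2 : IntegrableOn (fun z => ∑ a, ∑ k, (Oa A f I a).indicator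
      (fun z => φ z * ‖(jac (FF A f a) z).det‖ ^ 2 *
        lev (fun y => q a y (σ a z)) (FF A f a z) (ek k)) z) (Dp n \ I) :=
    (integrable_finsetSum _ (fun a _ => integrable_finsetSum _
      (fun k _ => hint2 a k))).integrableOn
  refine ⟨hI1.congr_fun (fun z hz => (hLL z hz).symm) hms,
    hI2.congr_fun (fun z hz => (hR z hz).symm) hms, ?_⟩
  rw [setIntegral_congr_fun hms hLL, setIntegral_congr_fun hms hR]
  rw [integral_finsetSum _ (fun a _ => (integrable_finsetSum _
      (fun k _ => hint a k)).integrableOn), integral_finsetSum _ (fun a _ => (integrable_finsetSum _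
      (fun k _ => hint2 a k)).integrableOn)]
  refine Finset.sum_congr rfl (fun a _ => ?_)
  rw [integral_finsetSum _ (fun k _ => (hint a k).integrableOn),
    integral_finsetSum _ (fun k _ => (hint2 a k).integrableOn)]
  refine Finset.sum_congr rfl (fun k _ => ?_)
  rw [setIntegral_indicator (hOm a), setIntegral_indicator (hOm a),
    inter_eq_self_of_subset_right (hOs a)]
  exact (sym a k).2.2

end Pool.Agent.H73.VG
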