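import Pool.Agent.H73.VG.LIN

/-!
# MP_6803f2_an, module LVM (Levi form in coordinates, symmetry)
-/

open MeasureTheory Set Filter Topology
open scoped ENNReal NNReal ContDiff ComplexConjugate

namespace Pool.Agent.H73.VG

open Pool.Agent.H95.VG

variable {n : ℕ} {F : Type*} [NormedAddCommGroup F] [NormedSpace ℝ F]

/-- the second derivative -/
noncomputable def HH (g : V n → F) (z : V n) : V n →L[ℝ] V n →L[ℝ] F := fderiv ℝ (fderiv ℝ g) z

theorem hasFDerivAt_D (g : V n → F) (z v : V n) (hg : ContDiffAt ℝ 2 g z) :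
    HasFDerivAt (fun x => fderiv ℝ g x v) ((ContinuousLinearMap.apply ℝ F v).comp (HH g z)) z := by
  have h1 : ContDiffAt ℝ 1 (fderiv ℝ g) z := hg.fderiv_right (by norm_num)
  have h2 : DifferentiableAt ℝ (fderiv ℝ g) z := h1.differentiableAt (by norm_num)
  exact (ContinuousLinearMap.apply ℝ F v).hasFDerivAt.comp z h2.hasFDerivAt

theorem fderiv_D (g : V n → F) (z v w : V n) (hg : ContDiffAt ℝ 2 g z) :
    fderiv ℝ (fun x => fderiv ℝ g x v) z w = HH g z w v := by
  rw [(hasFDerivAt_D g z v hg).fderiv]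
  rfl

theorem HH_symm (g : V n → F) (z v w : V n) (hg : ContDiffAt ℝ 2 g z) :
    HH g z v w = HH g z w v := by
  have h := hg.isSymmSndFDerivAt (by simp)
  exact h.eq v w

theorem lev_eq (g : V n → F) (z v : V n) (hg : ContDiffAt ℝ 2 g z) :
    lev g z v = (4 : ℝ)⁻¹ • (HH g z v v + HH g z (Complex.I • v) (Complex.I • v)) := by
  unfold lev
  rw [fderiv_D g z v v hg, fderiv_D g z _ _ hg]

theorem fderiv_dz (g : V n → ℂ) (z u w : V n) (hg : ContDiffAt ℝ 2 g z) :
    fderiv ℝ (fun x => dz g x u) z w = (HH g z w u - Complex.I * HH g z w (Complex.I • u)) / 2 := by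
  have h1 := hasFDerivAt_D g z u hg
  have h2 := hasFDerivAt_D g z (Complex.I • u) hg
  have h3 := (h1.sub (h2.const_mul Complex.I)).const_mul ((2 : ℂ)⁻¹)
  have e : (fun x => dz g x u) =
      fun x => (2 : ℂ)⁻¹ * (fderiv ℝ g x u - Complex.I * fderiv ℝ g x (Complex.I • u)) := by
    funext x
    unfold dz
    ring
  rw [e]
  have h4 := h3.fderiv
  rw [show (fun x => (2 : ℂ)⁻¹ * (fderiv ℝ g x u - Complex.I * fderiv ℝ g x (Complex.I • u))) =
    (fun y => (2 : ℂ)⁻¹ * ((fun x => fderiv ℝ g x u) y -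
      (fun x => Complex.I * fderiv ℝ g x (Complex.I • u)) y)) from rfl]
  erw [h4]
  simp
  ring

theorem fderiv_dzb (g : V n → ℂ) (z u w : V n) (hg : ContDiffAt ℝ 2 g z) :
    fderiv ℝ (fun x => dzb g x u) z w = (HH g z w u + Complex.I * HH g z w (Complex.I • u)) / 2 := by
  have h1 := hasFDerivAt_D g z u hg
  have h2 := hasFDerivAt_D g z (Complex.I • u) hg
  have h3 := (h1.add (h2.const_mul Complex.I)).const_mul ((2 : ℂ)⁻¹)
  have e : (fun x => dzb g x u) =
      fun x => (2 : ℂ)⁻¹ * (fderiv ℝ g x u + Complex.I * fderiv ℝ g x (Complex.I • u)) := by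
    funext x
    unfold dzb
    ring
  rw [e]
  erw [h3.fderiv]
  simp
  ring

theorem dzb_dz (g : V n → ℂ) (z u v : V n) (hg : ContDiffAt ℝ 2 g z) :
    dzb (fun x => dz g x u) z v = (HH g z v u - Complex.I * HH g z v (Complex.I • u) +
      Complex.I * HH g z (Complex.I • v) u + HH g z (Complex.I • v) (Complex.I • u)) / 4 := by
  rw [dzb, fderiv_dz g z u v hg, fderiv_dz g z u _ hg]
  have h2 := Complex.I_mul_I
  linear_combination (-(HH g z (Complex.I • v) (Complex.I • u)) / 4) * h2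

theorem dz_dzb (g : V n → ℂ) (z u v : V n) (hg : ContDiffAt ℝ 2 g z) :
    dz (fun x => dzb g x v) z u = dzb (fun x => dz g x u) z v := by
  rw [dzb_dz g z u v hg, dz, fderiv_dzb g z v u hg, fderiv_dzb g z v _ hg,
    HH_symm g z u v hg, HH_symm g z u (Complex.I • v) hg, HH_symm g z (Complex.I • u) v hg,
    HH_symm g z (Complex.I • u) (Complex.I • v) hg]
  have h2 := Complex.I_mul_I
  linear_combination (-(HH g z (Complex.I • v) (Complex.I • u)) / 4) * h2

theorem lev_dzb_dz (g : V n → ℂ) (z v : V n) (hg : ContDiffAt ℝ 2 g z) :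
    lev g z v = dzb (fun x => dz g x v) z v := by
  rw [lev_eq g z v hg, dzb_dz g z v v hg, HH_symm g z v (Complex.I • v) hg, Complex.real_smul]
  push_cast
  ring

theorem lev_coord (g : V n → ℂ) (z v : V n) (hg : ContDiffAt ℝ 2 g z) :
    lev g z v = ∑ i, ∑ j, v i * conj (v j) * dzb (fun x => dz g x (ek i)) z (ek j) := by
  rw [lev_dzb_dz g z v hg, dzb_eq, P01_sum, Finset.sum_comm]
  apply Finset.sum_congr rfl
  intro j _
  have h1 : P01 (fderiv ℝ (fun x => dz g x v) z) (ek j) = dz (fun x => dzb g x (ek j)) z v := by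
    rw [dz_dzb g z v (ek j) hg]
    rfl
  rw [h1, dz_eq, P10_sum, Finset.mul_sum]
  apply Finset.sum_congr rfl
  intro i _
  have h2 : P10 (fderiv ℝ (fun x => dzb g x (ek j)) z) (ek i) =
      dzb (fun x => dz g x (ek i)) z (ek j) := dz_dzb g z (ek i) (ek j) hg
  rw [h2]
  ring

theorem ev_diff (g : V n → F) (z : V n) (hg : ContDiffAt ℝ 2 g z) :
    ∀ᶠ x in 𝓝 z, DifferentiableAt ℝ g x := by
  filter_upwards [hg.eventually (by simp)] with x hx
  exact hx.differentiableAt (by norm_num)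

theorem cast_contDiffAt (g : V n → ℝ) (z : V n) (hg : ContDiffAt ℝ 2 g z) :
    ContDiffAt ℝ 2 (fun x => (g x : ℂ)) z :=
  Complex.ofRealCLM.contDiff.contDiffAt.comp z hg

theorem HH_cast (g : V n → ℝ) (z v w : V n) (hg : ContDiffAt ℝ 2 g z) :
    HH (fun x => (g x : ℂ)) z w v = ((HH g z w v : ℝ) : ℂ) := by
  rw [← fderiv_D _ z v w (cast_contDiffAt g z hg), ← fderiv_D g z v w hg]
  have h1 : (fun x => fderiv ℝ (fun x => (g x : ℂ)) x v) =ᶠ[𝓝 z]
      fun x => ((fderiv ℝ g x v : ℝ) : ℂ) := by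
    filter_upwards [ev_diff g z hg] with x hx
    rw [fderiv_ofReal g x hx]
    rfl
  rw [h1.fderiv_eq, fderiv_ofReal (fun x => fderiv ℝ g x v) z
    (hasFDerivAt_D g z v hg).differentiableAt]
  rfl

theorem lev_cast (g : V n → ℝ) (z v : V n) (hg : ContDiffAt ℝ 2 g z) :
    ((lev g z v : ℝ) : ℂ) = lev (fun x => (g x : ℂ)) z v := by
  rw [lev_eq g z v hg, lev_eq _ z v (cast_contDiffAt g z hg), HH_cast g z _ _ hg,
    HH_cast g z _ _ hg, Complex.real_smul, smul_eq_mul]
  push_cast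
  ring

theorem lvm : T_LVM := by
  intro n z v
  refine ⟨?_, ?_⟩
  · intro g hg
    refine ⟨fun i j => (dz_dzb g z (ek i) (ek j) hg).symm, lev_coord g z v hg⟩
  · intro g hg
    refine ⟨lev_cast g z v hg, ?_⟩
    rw [lev_cast g z v hg, lev_coord _ z v (cast_contDiffAt g z hg)]
    apply Finset.sum_congr rfl
    intro i _
    apply Finset.sum_congr rfl
    intro j _
    congr 1
    have h1 : (fun x => dz (fun x => (g x : ℂ)) x (ek i)) =ᶠ[𝓝 z] fun x => dr g x (ek i) := by
      filter_upwards [ev_diff g z hg] with x hx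
      rw [dz_eq, dr_eq, fderiv_ofReal g x hx]
    rw [dzb_eq, dzb_eq, h1.fderiv_eq]

end Pool.Agent.H73.VG
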