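import Pool.Agent.H73.VG.LIN

/-!
# MP_6803f2_an, module PIO (Piola identity)
-/

open MeasureTheory Set Filter Topology
open scoped ENNReal NNReal ContDiff ComplexConjugate

namespace Pool.Agent.H73.VG

open Pool.Agent.H95.VG

variable {n : ℕ}

/-- the determinant as a continuous multilinear map of the rows -/
noncomputable def DD (n : ℕ) : ContinuousMultilinearMap ℂ (fun _ : Fin n => V n) ℂ where
  toMultilinearMap := (Matrix.detRowAlternating : (V n) [⋀^Fin n]→ₗ[ℂ] ℂ).toMultilinearMap
  cont := (Continuous.matrix_det continuous_id : Continuous fun M : Matrix (Fin n) (Fin n) ℂ => M.det)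

/-- the rows of the Jacobian matrix -/
noncomputable def RR (Y : V n → V n) (x : V n) (l : Fin n) : V n := fun j => fderiv ℂ Y x (ek j) l

theorem cf_eq (Y : V n → V n) (k i : Fin n) (x : V n) :
    cf Y k x i = DD n (Function.update (RR Y x) k (ek i)) := by
  unfold cf
  rw [Matrix.adjugate_apply]
  rfl

theorem DD_swap (M : Fin n → V n) (k l : Fin n) (hkl : l ≠ k) (i j : Fin n) :
    DD n (Function.update (Function.update M k (ek j)) l (ek i)) =
      -DD n (Function.update (Function.update M k (ek i)) l (ek j)) := by
  have h := (Matrix.detRowAlternating : (V n) [⋀^Fin n]→ₗ[ℂ] ℂ).map_swap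
    (Function.update (Function.update M k (ek i)) l (ek j)) hkl
  have e : (Function.update (Function.update M k (ek i)) l (ek j)) ∘ Equiv.swap l k =
      Function.update (Function.update M k (ek j)) l (ek i) := by
    funext m
    by_cases h1 : m = l
    · subst h1
      simp [Function.update_of_ne hkl.symm]
    · by_cases h2 : m = k
      · subst h2
        simp [Function.update_of_ne h1]
      · simp [Equiv.swap_apply_of_ne_of_ne h1 h2, Function.update_of_ne h1, Function.update_of_ne h2]
  rw [e] at h
  exact h

/-- second derivatives -/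
theorem symm_second (Y : V n → V n) (z u v : V n) (hY : ContDiffAt ℂ 2 Y z) :
    DifferentiableAt ℂ (fun x => fderiv ℂ Y x v) z ∧
    fderiv ℂ (fun x => fderiv ℂ Y x v) z u = fderiv ℂ (fun x => fderiv ℂ Y x u) z v := by
  have h1 : ContDiffAt ℂ 1 (fderiv ℂ Y) z := hY.fderiv_right (by norm_num)
  have h2 : DifferentiableAt ℂ (fderiv ℂ Y) z := h1.differentiableAt (by norm_num)
  have h3 : ∀ v, HasFDerivAt (fun x => fderiv ℂ Y x v)
      ((ContinuousLinearMap.apply ℂ (V n) v).comp (fderiv ℂ (fderiv ℂ Y) z)) z := fun v =>
    (ContinuousLinearMap.apply ℂ (V n) v).hasFDerivAt.comp z h2.hasFDerivAt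
  refine ⟨(h3 v).differentiableAt, ?_⟩
  rw [(h3 v).fderiv, (h3 u).fderiv]
  have h4 := hY.isSymmSndFDerivAt (by simp)
  exact h4.eq u v

theorem hasFDerivAt_RR (Y : V n → V n) (z : V n) (hY : ContDiffAt ℂ 2 Y z) (l : Fin n) :
    HasFDerivAt (fun x => RR Y x l) (ContinuousLinearMap.pi (fun j =>
      (ContinuousLinearMap.proj l : V n →L[ℂ] ℂ).comp (fderiv ℂ (fun x => fderiv ℂ Y x (ek j)) z))) z := by
  rw [hasFDerivAt_pi]
  intro j
  have h1 := (symm_second Y z 0 (ek j) hY).1.hasFDerivAt
  exact (ContinuousLinearMap.proj l : V n →L[ℂ] ℂ).hasFDerivAt.comp z h1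

/-- the derivative of the cofactors -/
theorem hasFDerivAt_cf (Y : V n → V n) (z : V n) (hY : ContDiffAt ℂ 2 Y z) (k i : Fin n) :
    HasFDerivAt (fun x => cf Y k x i) (∑ l, ((DD n).toContinuousLinearMap
      (fun l' => Function.update (RR Y z) k (ek i) l') l) ∘L
        (if l = k then 0 else ContinuousLinearMap.pi (fun j =>
      (ContinuousLinearMap.proj l : V n →L[ℂ] ℂ).comp (fderiv ℂ (fun x => fderiv ℂ Y x (ek j)) z))))
      z := by
  have h := HasFDerivAt.multilinear_comp (f := DD n) (x := z)
    (g := fun l x => Function.update (RR Y x) k (ek i) l)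
    (g' := fun l => if l = k then 0 else ContinuousLinearMap.pi (fun j =>
      (ContinuousLinearMap.proj l : V n →L[ℂ] ℂ).comp (fderiv ℂ (fun x => fderiv ℂ Y x (ek j)) z)))
    (by
      intro l
      by_cases hl : l = k
      · subst hl
        simp only [Function.update_self, if_true]
        exact hasFDerivAt_const _ _
      · simp only [Function.update_of_ne hl, if_neg hl]
        exact hasFDerivAt_RR Y z hY l)
  have e : (fun x => cf Y k x i) = fun x => DD n (fun l => Function.update (RR Y x) k (ek i) l) := by
    funext x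
    exact cf_eq Y k i x
  rw [e]
  exact h

theorem pio (hS : T_SMO) : T_PIO := by
  intro n O Y hO hY k
  have hc : ∀ z ∈ O, ContDiffAt ℂ 2 Y z := by
    intro z hz
    have h1 := (hS n (V n) O Y hO hY).1
    exact (h1.contDiffAt (hO.mem_nhds hz)).of_le (WithTop.coe_le_coe.2 le_top)
  refine ⟨?_, ?_⟩
  · intro z hz
    apply DifferentiableAt.differentiableWithinAt
    rw [differentiableAt_pi]
    intro i
    exact (hasFDerivAt_cf Y z (hc z hz) k i).differentiableAt
  · intro z hz
    have hY2 := hc z hz
    set H : Fin n → Fin n → Fin n → ℂ := fun l i j =>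
      (fderiv ℂ (fun x => fderiv ℂ Y x (ek j)) z (ek i)) l with hH
    set S : Fin n → Fin n → Fin n → ℂ := fun l i j =>
      DD n (Function.update (Function.update (RR Y z) k (ek i)) l (ek j)) with hS'
    have hHs : ∀ l i j, H l i j = H l j i := by
      intro l i j
      simp only [hH]
      rw [(symm_second Y z (ek i) (ek j) hY2).2]
    have h1 : ∀ i, fderiv ℂ (fun x => cf Y k x i) z (ek i) =
        ∑ l, if l = k then 0 else ∑ j, H l i j * S l i j := by
      intro i
      rw [(hasFDerivAt_cf Y z hY2 k i).fderiv, sum_apply]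
      apply Finset.sum_congr rfl
      intro l _
      by_cases hl : l = k
      · simp only [hl, if_true, ContinuousLinearMap.comp_zero]
        rfl
      · simp only [if_neg hl]
        have e1 : (((DD n).toContinuousLinearMap
            (fun l' => Function.update (RR Y z) k (ek i) l') l) ∘L ContinuousLinearMap.pi (fun j =>
            (ContinuousLinearMap.proj l : V n →L[ℂ] ℂ).comp
              (fderiv ℂ (fun x => fderiv ℂ Y x (ek j)) z))) (ek i) =
            DD n (Function.update (Function.update (RR Y z) k (ek i)) l (fun j => H l i j)) := rfl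
        rw [e1]
        have e2 : (fun j => H l i j) = ∑ j, H l i j • (ek j : V n) := sum_ek _
        rw [e2]
        refine ((DD n).toMultilinearMap.map_update_sum Finset.univ l
          (fun j => H l i j • (ek j : V n)) (Function.update (RR Y z) k (ek i))).trans ?_
        apply Finset.sum_congr rfl
        intro j _
        exact (DD n).toMultilinearMap.map_update_smul (Function.update (RR Y z) k (ek i)) l
          (H l i j) (ek j)
    rw [Finset.sum_congr rfl (fun i _ => h1 i), Finset.sum_comm]
    apply Finset.sum_eq_zero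
    intro l _
    by_cases hl : l = k
    · simp [hl]
    · simp only [if_neg hl]
      have h2 : ∑ i, ∑ j, H l i j * S l i j = -∑ i, ∑ j, H l i j * S l i j := by
        conv_lhs => rw [Finset.sum_comm]
        rw [← Finset.sum_neg_distrib]
        apply Finset.sum_congr rfl
        intro j _
        rw [← Finset.sum_neg_distrib]
        apply Finset.sum_congr rfl
        intro i _
        have e3 : S l i j = -S l j i := DD_swap (RR Y z) k l hl j i
        rw [e3, hHs l i j]
        ring
      have h3 : (2 : ℂ) * ∑ i, ∑ j, H l i j * S l i j = 0 := by linear_combination h2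
      exact (mul_eq_zero.1 h3).resolve_left two_ne_zero

end Pool.Agent.H73.VG
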