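import Pool.Agent.H73.VG.LVM

/-!
# MP_6803f2_an, module PRD (product and chain rules)
-/

open MeasureTheory Set Filter Topology
open scoped ENNReal NNReal ContDiff ComplexConjugate

namespace Pool.Agent.H73.VG

open Pool.Agent.H95.VG

variable {n : ℕ}

theorem re_dr_dr (g h : V n → ℝ) (z v : V n) :
    2 * (dr g z v * conj (dr h z v)).re =
      (fderiv ℝ g z v * fderiv ℝ h z v +
        fderiv ℝ g z (Complex.I • v) * fderiv ℝ h z (Complex.I • v)) / 2 := by
  have h1 : ∀ a b : ℝ, (((a : ℂ) - Complex.I * (b : ℂ)) / 2) = ⟨a / 2, -b / 2⟩ := by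
    intro a b
    apply Complex.ext
    · simp
    · simp
  unfold dr
  rw [h1, h1, Complex.mul_re, Complex.conj_re, Complex.conj_im]
  simp only
  ring

theorem ge_eq (g : V n → ℝ) (z v : V n) :
    ge g z v = ((fderiv ℝ g z v) ^ 2 + (fderiv ℝ g z (Complex.I • v)) ^ 2) / 4 := by
  have h1 := re_dr_dr g g z v
  unfold ge
  rw [Complex.mul_conj, Complex.ofReal_re, Complex.normSq_eq_norm_sq] at h1
  linarith

/-- the derivative of `x ↦ a x * fderiv h x v` -/
theorem fderiv_mul_D (a h : V n → ℝ) (z v w : V n) (ha : DifferentiableAt ℝ a z)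
    (hh : ContDiffAt ℝ 2 h z) :
    DifferentiableAt ℝ (fun x => a x * fderiv ℝ h x v) z ∧
    fderiv ℝ (fun x => a x * fderiv ℝ h x v) z w =
      a z * HH h z w v + fderiv ℝ a z w * fderiv ℝ h z v := by
  have h1 := hasFDerivAt_D h z v hh
  have h2 := ha.hasFDerivAt.mul h1
  refine ⟨h2.differentiableAt, ?_⟩
  erw [h2.fderiv]
  simp
  ring

theorem HH_mul (g h : V n → ℝ) (z v w : V n) (hg : ContDiffAt ℝ 2 g z) (hh : ContDiffAt ℝ 2 h z) :
    HH (fun x => g x * h x) z w v = g z * HH h z w v + h z * HH g z w v +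
      fderiv ℝ g z w * fderiv ℝ h z v + fderiv ℝ h z w * fderiv ℝ g z v := by
  rw [← fderiv_D _ z v w (hg.mul hh)]
  have h1 : (fun x => fderiv ℝ (fun x => g x * h x) x v) =ᶠ[𝓝 z]
      fun x => g x * fderiv ℝ h x v + h x * fderiv ℝ g x v := by
    filter_upwards [ev_diff g z hg, ev_diff h z hh] with x hx hx'
    rw [fderiv_fun_mul hx hx']
    simp
  have hgd := hg.differentiableAt (by norm_num)
  have hhd := hh.differentiableAt (by norm_num)
  obtain ⟨d1, e1⟩ := fderiv_mul_D g h z v w hgd hh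
  obtain ⟨d2, e2⟩ := fderiv_mul_D h g z v w hhd hg
  rw [h1.fderiv_eq, fderiv_fun_add d1 d2, add_apply, e1, e2]
  ring

theorem HH_comp (θ : ℝ → ℝ) (g : V n → ℝ) (z v w : V n) (hθ : ContDiffAt ℝ 2 θ (g z))
    (hg : ContDiffAt ℝ 2 g z) :
    HH (fun x => θ (g x)) z w v = deriv θ (g z) * HH g z w v +
      deriv (deriv θ) (g z) * fderiv ℝ g z w * fderiv ℝ g z v := by
  have hc : ContDiffAt ℝ 2 (fun x => θ (g x)) z := hθ.comp z hg
  rw [← fderiv_D _ z v w hc]
  have hgd := hg.differentiableAt (by norm_num)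
  have hev : ∀ᶠ x in 𝓝 z, DifferentiableAt ℝ θ (g x) := by
    have h1 : ∀ᶠ y in 𝓝 (g z), DifferentiableAt ℝ θ y := by
      filter_upwards [hθ.eventually (by simp)] with y hy
      exact hy.differentiableAt (by norm_num)
    exact hgd.continuousAt.eventually h1
  have h1 : (fun x => fderiv ℝ (fun x => θ (g x)) x v) =ᶠ[𝓝 z]
      fun x => deriv θ (g x) * fderiv ℝ g x v := by
    filter_upwards [ev_diff g z hg, hev] with x hx hx'
    have h2 := hx'.hasDerivAt.comp_hasFDerivAt x hx.hasFDerivAt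
    have h3 : fderiv ℝ (fun x => θ (g x)) x = deriv θ (g x) • fderiv ℝ g x := h2.fderiv
    rw [h3]
    rfl
  have hdθ : DifferentiableAt ℝ (deriv θ) (g z) := by
    have h2 : ContDiffAt ℝ 1 (fderiv ℝ θ) (g z) := hθ.fderiv_right (by norm_num)
    have h3 := h2.differentiableAt (by norm_num)
    have h4 : deriv θ = fun y => fderiv ℝ θ y 1 := by
      funext y
      exact (fderiv_apply_one_eq_deriv).symm
    rw [h4]
    exact h3.clm_apply (differentiableAt_const _)
  have hda := hdθ.hasDerivAt.comp_hasFDerivAt z hgd.hasFDerivAt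
  have hda' : HasFDerivAt (fun x => deriv θ (g x)) (deriv (deriv θ) (g z) • fderiv ℝ g z) z := hda
  obtain ⟨d1, e1⟩ := fderiv_mul_D (fun x => deriv θ (g x)) g z v w hda'.differentiableAt hg
  rw [h1.fderiv_eq, e1, hda'.fderiv]
  simp

theorem prd : T_PRD := by
  intro n z v
  refine ⟨?_, ?_, ?_, ?_, ?_⟩
  · intro g h hg hh
    have h1 : ∀ w, fderiv ℝ (fun x => g x * h x) z w =
        g z * fderiv ℝ h z w + h z * fderiv ℝ g z w := by
      intro w
      rw [fderiv_fun_mul hg hh]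
      simp
    unfold dz dzb
    rw [h1, h1]
    constructor <;> ring
  · intro g h hg hh
    have h1 : ∀ w, fderiv ℝ (fun x => g x * h x) z w =
        g z * fderiv ℝ h z w + h z * fderiv ℝ g z w := by
      intro w
      rw [fderiv_fun_mul hg hh]
      simp
    unfold dr
    rw [h1, h1]
    push_cast
    ring
  · intro g h hg hh
    rw [lev_eq _ z v (hg.mul hh), lev_eq g z v hg, lev_eq h z v hh, HH_mul g h z _ _ hg hh,
      HH_mul g h z _ _ hg hh, re_dr_dr]
    simp only [smul_eq_mul]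
    ring
  · intro θ g hθ hg
    have h2 := hθ.hasDerivAt.comp_hasFDerivAt z hg.hasFDerivAt
    have h3 : fderiv ℝ (fun x => θ (g x)) z = deriv θ (g z) • fderiv ℝ g z := h2.fderiv
    unfold dr
    rw [h3]
    simp
    ring
  · intro θ g hθ hg
    have hc : ContDiffAt ℝ 2 (fun x => θ (g x)) z := hθ.comp z hg
    rw [lev_eq _ z v hc, lev_eq g z v hg, HH_comp θ g z _ _ hθ hg,
      HH_comp θ g z _ _ hθ hg, ge_eq]
    simp only [smul_eq_mul]
    ring

end Pool.Agent.H73.VG
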