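import Pool.Agent.H95.VG.Targets1

/-!
# MP_6803f2_an, module LIN (linearity of the first order operators)
-/

open MeasureTheory Set Filter Topology
open scoped ENNReal NNReal ContDiff ComplexConjugate

namespace Pool.Agent.H73.VG

open Pool.Agent.H95.VG

variable {n : ℕ}

/-- the `(1,0)` part of a real linear map -/
noncomputable def P10 (D : V n →L[ℝ] ℂ) (v : V n) : ℂ := (D v - Complex.I * D (Complex.I • v)) / 2

/-- the `(0,1)` part of a real linear map -/
noncomputable def P01 (D : V n →L[ℝ] ℂ) (v : V n) : ℂ := (D v + Complex.I * D (Complex.I • v)) / 2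

theorem map_csmul (D : V n →L[ℝ] ℂ) (c : ℂ) (v : V n) :
    D (c • v) = (c.re : ℂ) * D v + (c.im : ℂ) * D (Complex.I • v) := by
  have h : c • v = c.re • v + c.im • (Complex.I • v) := by
    ext i
    simp only [Pi.smul_apply, Pi.add_apply, smul_eq_mul, Complex.real_smul]
    conv_lhs => rw [← Complex.re_add_im c]
    ring
  rw [h, map_add, map_smul, map_smul, Complex.real_smul, Complex.real_smul]

theorem map_II (D : V n →L[ℝ] ℂ) (v : V n) : D (Complex.I • (Complex.I • v)) = - D v := by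
  rw [smul_smul, Complex.I_mul_I, neg_smul, one_smul, map_neg]

theorem P10_add (D : V n →L[ℝ] ℂ) (u v : V n) : P10 D (u + v) = P10 D u + P10 D v := by
  unfold P10
  rw [smul_add, map_add, map_add]
  ring

theorem P01_add (D : V n →L[ℝ] ℂ) (u v : V n) : P01 D (u + v) = P01 D u + P01 D v := by
  unfold P01
  rw [smul_add, map_add, map_add]
  ring

theorem P10_smul (D : V n →L[ℝ] ℂ) (c : ℂ) (v : V n) : P10 D (c • v) = c * P10 D v := by
  unfold P10
  have h1 : Complex.I • (c • v) = c • (Complex.I • v) := smul_comm _ _ _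
  rw [h1, map_csmul D c v, map_csmul D c (Complex.I • v), map_II]
  have h2 := Complex.I_mul_I
  conv_rhs => rw [← Complex.re_add_im c]
  linear_combination ((c.im : ℂ) * D (Complex.I • v) / 2) * h2

theorem P01_smul (D : V n →L[ℝ] ℂ) (c : ℂ) (v : V n) : P01 D (c • v) = conj c * P01 D v := by
  unfold P01
  have h1 : Complex.I • (c • v) = c • (Complex.I • v) := smul_comm _ _ _
  rw [h1, map_csmul D c v, map_csmul D c (Complex.I • v), map_II]
  have h2 := Complex.I_mul_I
  have h3 : conj c = (c.re : ℂ) - (c.im : ℂ) * Complex.I := by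
    apply Complex.ext <;> simp
  rw [h3]
  linear_combination ((c.im : ℂ) * D (Complex.I • v) / 2) * h2

/-- `P10` as a linear map -/
noncomputable def L10 (D : V n →L[ℝ] ℂ) : V n →ₗ[ℂ] ℂ where
  toFun := P10 D
  map_add' := P10_add D
  map_smul' := P10_smul D

/-- `P01` as a semilinear map -/
noncomputable def L01 (D : V n →L[ℝ] ℂ) : V n →ₛₗ[starRingEnd ℂ] ℂ where
  toFun := P01 D
  map_add' := P01_add D
  map_smul' := P01_smul D

theorem sum_ek (v : V n) : v = ∑ i, v i • (ek i : V n) := by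
  ext j
  rw [Finset.sum_apply]
  simp only [ek, Pi.smul_apply, Pi.single_apply, smul_eq_mul, mul_ite, mul_one, mul_zero]
  simp

theorem P10_sum (D : V n →L[ℝ] ℂ) (v : V n) : P10 D v = ∑ i, v i * P10 D (ek i) := by
  have h : L10 D v = L10 D (∑ i, v i • (ek i : V n)) := by rw [← sum_ek v]
  rw [map_sum] at h
  simp only [map_smul, smul_eq_mul] at h
  exact h

theorem P01_sum (D : V n →L[ℝ] ℂ) (v : V n) : P01 D v = ∑ i, conj (v i) * P01 D (ek i) := by
  have h : L01 D v = L01 D (∑ i, v i • (ek i : V n)) := by rw [← sum_ek v]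
  rw [map_sum] at h
  simp only [LinearMap.map_smulₛₗ, smul_eq_mul] at h
  exact h

theorem dz_eq (g : V n → ℂ) (z v : V n) : dz g z v = P10 (fderiv ℝ g z) v := rfl

theorem dzb_eq (g : V n → ℂ) (z v : V n) : dzb g z v = P01 (fderiv ℝ g z) v := rfl

theorem dr_eq (g : V n → ℝ) (z v : V n) :
    dr g z v = P10 (Complex.ofRealCLM.comp (fderiv ℝ g z)) v := rfl

theorem conj_P10 (D : V n →L[ℝ] ℂ) (v : V n) :
    P01 ((Complex.conjCLE : ℂ →L[ℝ] ℂ).comp D) v = conj (P10 D v) := by
  unfold P10 P01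
  simp only [ContinuousLinearMap.comp_apply, map_div₀, map_sub, map_mul, Complex.conj_I]
  have h1 : ∀ w : ℂ, (Complex.conjCLE : ℂ →L[ℝ] ℂ) w = conj w := fun w => rfl
  rw [h1, h1]
  have h2 : (conj (2 : ℂ)) = 2 := Complex.conj_ofNat 2
  rw [h2]
  ring

theorem conj_P01 (D : V n →L[ℝ] ℂ) (v : V n) :
    P10 ((Complex.conjCLE : ℂ →L[ℝ] ℂ).comp D) v = conj (P01 D v) := by
  unfold P10 P01
  simp only [ContinuousLinearMap.comp_apply, map_div₀, map_add, map_mul, Complex.conj_I]
  have h1 : ∀ w : ℂ, (Complex.conjCLE : ℂ →L[ℝ] ℂ) w = conj w := fun w => rfl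
  rw [h1, h1]
  have h2 : (conj (2 : ℂ)) = 2 := Complex.conj_ofNat 2
  rw [h2]
  ring

theorem fderiv_conj (g : V n → ℂ) (z : V n) (hg : DifferentiableAt ℝ g z) :
    fderiv ℝ (fun x => conj (g x)) z = (Complex.conjCLE : ℂ →L[ℝ] ℂ).comp (fderiv ℝ g z) := by
  have h := (Complex.conjCLE : ℂ →L[ℝ] ℂ).hasFDerivAt.comp z hg.hasFDerivAt
  exact h.fderiv

theorem fderiv_ofReal (g : V n → ℝ) (z : V n) (hg : DifferentiableAt ℝ g z) :
    fderiv ℝ (fun x => (g x : ℂ)) z = Complex.ofRealCLM.comp (fderiv ℝ g z) := by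
  have h := Complex.ofRealCLM.hasFDerivAt.comp z hg.hasFDerivAt
  exact h.fderiv

theorem P01_real (D : V n →L[ℝ] ℝ) (v : V n) :
    P01 (Complex.ofRealCLM.comp D) v = conj (P10 (Complex.ofRealCLM.comp D) v) := by
  rw [← conj_P10]
  congr 1
  ext w
  simp

theorem lin : T_LIN := by
  intro n z
  refine ⟨?_, ?_, ?_, ?_, ?_⟩
  · intro g u v c
    refine ⟨P10_add _ u v, P10_smul _ c v, P01_add _ u v, P01_smul _ c v, P10_sum _ v,
      P01_sum _ v, ?_⟩
    unfold dz dzb
    ring
  · intro g v hg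
    rw [dzb_eq, dz_eq, dz_eq, dzb_eq, fderiv_conj g z hg]
    exact ⟨conj_P10 _ v, conj_P01 _ v⟩
  · intro g v hg
    have h1 : fderiv ℝ g z = (fderiv ℂ g z).restrictScalars ℝ := hg.fderiv_restrictScalars ℝ
    unfold dz dzb
    rw [h1]
    simp only [ContinuousLinearMap.coe_restrictScalars', map_smul, smul_eq_mul]
    have h2 := Complex.I_mul_I
    constructor
    · linear_combination (-(fderiv ℂ g z v) / 2) * h2
    · linear_combination ((fderiv ℂ g z v) / 2) * h2
  · intro g v hg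
    rw [dz_eq, dzb_eq, dr_eq, fderiv_ofReal g z hg]
    exact ⟨rfl, P01_real _ v⟩
  · intro g v
    refine ⟨by simp only [dr_eq]; exact P10_sum _ v, ?_⟩
    unfold dr
    simp
    ring

end Pool.Agent.H73.VG
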