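import Pool.Agent.H95.VG.Targets5

/-!
# MP_6803f2_an, module JAC (Jacobians on the graph)
-/

open MeasureTheory Set Filter Topology
open scoped ENNReal NNReal ContDiff ComplexConjugate

namespace Pool.Agent.H73.VG

open Pool.Agent.H95.VG

variable {n : ℕ}

theorem zf_differentiableAt {F : V n → V n} {z : V n} (hF : DifferentiableAt ℂ F z) :
    DifferentiableAt ℂ (Zf F) z := by
  rw [differentiableAt_pi]
  intro i
  refine Fin.addCases (fun i => ?_) (fun i => ?_) i
  · have : (fun x => Zf F x (Fin.castAdd n i)) = fun x => x i := by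
      funext x
      simp [Zf]
    rw [this]
    fun_prop
  · have : (fun x => Zf F x (Fin.natAdd n i)) = fun x => F x i := by
      funext x
      exact Fin.append_right x (F x) i
    rw [this]
    exact (differentiableAt_pi.1 hF) i

theorem zf_apply (F : V n → V n) (z : V n) (s : Fin n ⊕ Fin n) :
    Zf F z (finSumFinEquiv s) = Sum.elim z (F z) s := by
  cases s with
  | inl i => simp [Zf]
  | inr i =>
    rw [finSumFinEquiv_apply_right]
    exact Fin.append_right z (F z) i

theorem yy_zf (l : V (n + n) → V n) (P : V (n + n)) (Φ : Fin n → Fin n ⊕ Fin n) (ε : ℝ)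
    (F : V n → V n) (z : V n) :
    YY l P Φ ε (Zf F z) = l (Zf F z) + ((ε : ℝ) : ℂ) • (mix Φ F z - fun i => P (finSumFinEquiv (Φ i))) := by
  funext i
  unfold YY
  rw [zf_apply]
  simp [mix]

theorem jacm : T_JAC := by
  intro n F z P' r l hF hl hz Φ ε
  have hZ := zf_differentiableAt hF
  have hlz : DifferentiableAt ℂ l (Zf F z) := hl.differentiableAt (Metric.isOpen_ball.mem_nhds hz)
  have hlF : DifferentiableAt ℂ (fun x => l (Zf F x)) z := hlz.comp z hZ
  have hmix : DifferentiableAt ℂ (mix Φ F) z := by
    rw [differentiableAt_pi]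
    intro i
    unfold mix
    cases Φ i with
    | inl j =>
      simp only [Sum.elim_inl]
      fun_prop
    | inr j =>
      simp only [Sum.elim_inr]
      exact (differentiableAt_pi.1 hF) j
  have hfun : (fun x => YY l P' Φ ε (Zf F x)) = fun x => l (Zf F x) +
      ((ε : ℝ) : ℂ) • (mix Φ F x - fun i => P' (finSumFinEquiv (Φ i))) := by
    funext x
    exact yy_zf l P' Φ ε F x
  have hd := hlF.hasFDerivAt.add ((hmix.hasFDerivAt.sub_const
    (fun i => P' (finSumFinEquiv (Φ i)))).const_smul ((ε : ℝ) : ℂ))
  rw [hfun]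
  refine ⟨hd.differentiableAt, ?_⟩
  ext i j
  unfold jac
  simp only [Matrix.of_apply, Matrix.add_apply, Matrix.smul_apply]
  erw [hd.fderiv]
  simp

end Pool.Agent.H73.VG
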