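import Pool.Agent.H95.VG.Targets1
import Pool.Agent.H95.VG.Targets5
import Pool.Agent.H73.VG.PRD

/-!
# MP_6803f2_an, module LSY (symmetry of the Levi operator)
-/

open MeasureTheory Set Filter Topology
open scoped ENNReal NNReal ContDiff ComplexConjugate

namespace Pool.Agent.H73.VG

open Pool.Agent.H95.VG

variable {n : ℕ}

/-- functions of class `C^m` on `O` which vanish off a compact subset -/
theorem ext_contDiff {E : Type*} [NormedAddCommGroup E] [NormedSpace ℝ E] {O K : Set (V n)}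
    {m : ℕ∞} {G : V n → E} (hO : IsOpen O) (hK : IsCompact K) (hKO : K ⊆ O)
    (hG : ContDiffOn ℝ m G O) (h0 : ∀ z ∉ K, G z = 0) :
    ContDiff ℝ m G ∧ HasCompactSupport G ∧ tsupport G ⊆ O := by
  have hs : Function.support G ⊆ K := by
    intro z hz
    by_contra h
    exact hz (h0 z h)
  have hts : tsupport G ⊆ K := closure_minimal hs hK.isClosed
  refine ⟨?_, HasCompactSupport.intro hK (fun z hz => h0 z hz), hts.trans hKO⟩
  rw [contDiff_iff_contDiffAt]
  intro z
  by_cases hz : z ∈ O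
  · exact hG.contDiffAt (hO.mem_nhds hz)
  · have h1 : G =ᶠ[𝓝 z] fun _ => 0 := by
      filter_upwards [hK.isClosed.isOpen_compl.mem_nhds (fun h => hz (hKO h))] with y hy
      exact h0 y hy
    exact contDiffAt_const.congr_of_eventuallyEq h1

theorem ext_integrable {E : Type*} [NormedAddCommGroup E] [NormedSpace ℝ E] {O K : Set (V n)}
    {G : V n → E} (hO : IsOpen O) (hK : IsCompact K) (hKO : K ⊆ O)
    (hG : ContinuousOn G O) (h0 : ∀ z ∉ K, G z = 0) : Integrable G := by
  have h1 := ext_contDiff (m := 0) hO hK hKO (contDiffOn_zero.2 hG) h0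
  exact h1.1.continuous.integrable_of_hasCompactSupport h1.2.1

theorem dz_contDiffOn {O : Set (V n)} (hO : IsOpen O) {g : V n → ℂ} {F : V n → V n}
    (hg : ContDiffOn ℝ 2 g O) (hF : ContDiffOn ℝ 1 F O) :
    ContDiffOn ℝ 1 (fun x => dz g x (F x)) O := by
  have h1 : ContDiffOn ℝ 1 (fderiv ℝ g) O := hg.fderiv_of_isOpen hO (by norm_num)
  have h2 : ContDiffOn ℝ 1 (fun x => fderiv ℝ g x (F x)) O := h1.clm_apply hF
  have hIF : ContDiffOn ℝ 1 (fun x => Complex.I • F x) O := hF.const_smul Complex.I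
  have h3 : ContDiffOn ℝ 1 (fun x => fderiv ℝ g x (Complex.I • F x)) O := h1.clm_apply hIF
  unfold dz
  exact (h2.sub (contDiffOn_const.mul h3)).div_const 2

theorem lev_continuousOn {O : Set (V n)} (hO : IsOpen O) {g : V n → ℝ} {F : V n → V n}
    (hg : ContDiffOn ℝ 2 g O) (hF : ContinuousOn F O) :
    ContinuousOn (fun x => lev g x (F x)) O := by
  have h1 : ContDiffOn ℝ 1 (fderiv ℝ g) O := hg.fderiv_of_isOpen hO (by norm_num)
  have h2 : ContDiffOn ℝ 0 (fderiv ℝ (fderiv ℝ g)) O := h1.fderiv_of_isOpen hO (by norm_num)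
  have h3 : ContinuousOn (fderiv ℝ (fderiv ℝ g)) O := h2.continuousOn
  have h4 : ContinuousOn (fun x => (4 : ℝ)⁻¹ • (HH g x (F x) (F x) +
      HH g x (Complex.I • F x) (Complex.I • F x))) O := by
    have hIF : ContinuousOn (fun x => Complex.I • F x) O := hF.const_smul Complex.I
    exact ContinuousOn.const_smul (((h3.clm_apply hF).clm_apply hF).add
      ((h3.clm_apply hIF).clm_apply hIF)) ((4 : ℝ)⁻¹)
  refine h4.congr (fun x hx => ?_)
  exact lev_eq g x (F x) (hg.contDiffAt (hO.mem_nhds hx))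

theorem half_sym (hLVX : T_LVX) (hLIN : T_LIN) (hDIV : T_DIV) (hSMO : T_SMO)
    {O K : Set (V n)} {F : V n → V n} {φ g : V n → ℝ} (hO : IsOpen O) (hK : IsCompact K)
    (hKO : K ⊆ O) (hF : DifferentiableOn ℂ F O)
    (hdiv : ∀ z ∈ O, ∑ i, fderiv ℂ (fun x => F x i) z (ek i) = 0)
    (hφ : ContDiffOn ℝ 2 φ O) (hg : ContDiffOn ℝ 2 g O)
    (h0 : ∀ z ∉ K, φ =ᶠ[𝓝 z] (fun _ => 0) ∨ g =ᶠ[𝓝 z] (fun _ => 0)) :
    IntegrableOn (fun z => φ z * lev g z (F z)) O ∧
    IntegrableOn (fun z => (dr g z (F z) * conj (dr φ z (F z))).re) O ∧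
    ∫ z in O, φ z * lev g z (F z) = - ∫ z in O, (dr g z (F z) * conj (dr φ z (F z))).re := by
  have hFs : ContDiffOn ℝ 1 F O :=
    ((hSMO n (V n) O F hO hF).2.1).of_le (WithTop.coe_le_coe.2 le_top)
  have hgc : ContDiffOn ℝ 2 (fun x => (g x : ℂ)) O :=
    Complex.ofRealCLM.contDiff.comp_contDiffOn hg
  have hφc : ContDiffOn ℝ 2 (fun x => (φ x : ℂ)) O :=
    Complex.ofRealCLM.contDiff.comp_contDiffOn hφ
  have hA : ContDiffOn ℝ 1 (fun x => dz (fun x => (g x : ℂ)) x (F x)) O := dz_contDiffOn hO hgc hFs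
  have hG : ContDiffOn ℝ 1 (fun x => (φ x : ℂ) * dz (fun x => (g x : ℂ)) x (F x)) O :=
    (hφc.of_le (by norm_num)).mul hA
  have hdz0 : ∀ z, g =ᶠ[𝓝 z] (fun _ => 0) → ∀ v, dz (fun x => (g x : ℂ)) z v = 0 := by
    intro z hz v
    have he : (fun x => (g x : ℂ)) =ᶠ[𝓝 z] fun _ => (0 : ℂ) := by
      filter_upwards [hz] with x hx
      rw [hx]
      simp
    unfold dz
    rw [he.fderiv_eq]
    simp
  have hG0 : ∀ z ∉ K, (φ z : ℂ) * dz (fun x => (g x : ℂ)) z (F z) = 0 := by
    intro z hz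
    rcases h0 z hz with h | h
    · rw [h.eq_of_nhds]
      simp
    · rw [hdz0 z h, mul_zero]
  obtain ⟨hG1, hG2, hG3⟩ := ext_contDiff (m := 1) hO hK hKO hG hG0
  have hdd := hDIV n O F (fun _ => 1) _ hO hF hdiv (differentiableOn_const 1) hG1 hG2 hG3
  have hpt : ∀ z ∈ O, (1 : ℂ) * dzb (fun x => (φ x : ℂ) * dz (fun x => (g x : ℂ)) x (F x)) z (F z) =
      ((φ z * lev g z (F z) : ℝ) : ℂ) + dr g z (F z) * conj (dr φ z (F z)) := by
    intro z hz
    have hnz := hO.mem_nhds hz
    have hg2 : ContDiffAt ℝ 2 g z := hg.contDiffAt hnz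
    have hφ2 : ContDiffAt ℝ 2 φ z := hφ.contDiffAt hnz
    have e1 := ((prd n z (F z)).1 (fun x => (φ x : ℂ)) (fun x => dz (fun x => (g x : ℂ)) x (F x))
      ((hφc.contDiffAt hnz).differentiableAt (by norm_num))
      ((hA.contDiffAt hnz).differentiableAt (by norm_num))).2
    rw [one_mul, e1, ← (hLVX n O F (fun x => (g x : ℂ)) hO hF hgc z hz).1, ← lev_cast g z (F z) hg2]
    have e2 := ((hLIN n z).2.2.2.1 φ (F z) (hφ2.differentiableAt (by norm_num))).2
    have e3 := ((hLIN n z).2.2.2.1 g (F z) (hg2.differentiableAt (by norm_num))).1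
    rw [e2, e3]
    push_cast
    ring
  rw [setIntegral_congr_fun hO.measurableSet hpt] at hdd
  -- integrability
  have hcF := hF.continuousOn
  have hlev0 : ∀ z ∉ K, φ z * lev g z (F z) = 0 := by
    intro z hz
    rcases h0 z hz with h | h
    · rw [h.eq_of_nhds, zero_mul]
    · have : lev g z (F z) = 0 := by
        have h2 : ∀ u : V n, (fun x => fderiv ℝ g x u) =ᶠ[𝓝 z] fun _ => 0 := by
          intro u
          filter_upwards [h.eventually_nhds] with x hx
          have he : g =ᶠ[𝓝 x] fun _ => 0 := hx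
          rw [he.fderiv_eq]
          simp
        unfold lev
        rw [(h2 _).fderiv_eq, (h2 _).fderiv_eq]
        simp
      rw [this, mul_zero]
  have hI1 : Integrable (fun z => φ z * lev g z (F z)) :=
    ext_integrable hO hK hKO (hφ.continuousOn.mul (lev_continuousOn hO hg hcF)) hlev0
  have hdr0 : ∀ (p : V n → ℝ) z, p =ᶠ[𝓝 z] (fun _ => 0) → ∀ v, dr p z v = 0 := by
    intro p z hz v
    unfold dr
    rw [hz.fderiv_eq]
    simp
  have hdrc : ∀ p : V n → ℝ, ContDiffOn ℝ 2 p O → ContinuousOn (fun z => dr p z (F z)) O := by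
    intro p hp
    have h1 : ContDiffOn ℝ 1 (fderiv ℝ p) O := hp.fderiv_of_isOpen hO (by norm_num)
    have h2 : ContinuousOn (fun x => fderiv ℝ p x (F x)) O := h1.continuousOn.clm_apply hcF
    have h3 : ContinuousOn (fun x => fderiv ℝ p x (Complex.I • F x)) O :=
      h1.continuousOn.clm_apply (hcF.const_smul Complex.I)
    unfold dr
    exact ((Complex.continuous_ofReal.comp_continuousOn h2).sub
      (continuousOn_const.mul (Complex.continuous_ofReal.comp_continuousOn h3))).div_const 2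
  have hcross0 : ∀ z ∉ K, dr g z (F z) * conj (dr φ z (F z)) = 0 := by
    intro z hz
    rcases h0 z hz with h | h
    · rw [hdr0 φ z h]
      simp
    · rw [hdr0 g z h]
      simp
  have hI2 : Integrable (fun z => dr g z (F z) * conj (dr φ z (F z))) :=
    ext_integrable hO hK hKO ((hdrc g hg).mul
      (Complex.continuous_conj.comp_continuousOn (hdrc φ hφ))) hcross0
  refine ⟨hI1.integrableOn, hI2.re.integrableOn, ?_⟩
  have hI1c : Integrable (fun z => ((φ z * lev g z (F z) : ℝ) : ℂ)) := hI1.ofReal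
  rw [integral_add hI1c.integrableOn hI2.integrableOn] at hdd
  have e1 := congrArg Complex.re hdd
  have e2 : (∫ z in O, ((φ z * lev g z (F z) : ℝ) : ℂ)).re = ∫ z in O, φ z * lev g z (F z) := by
    have := Complex.reCLM.integral_comp_comm (hI1c.integrableOn (s := O))
    simp only [Complex.reCLM_apply, Complex.ofReal_re] at this
    rw [← this]
  have e3 : (∫ z in O, dr g z (F z) * conj (dr φ z (F z))).re =
      ∫ z in O, (dr g z (F z) * conj (dr φ z (F z))).re := by
    have := Complex.reCLM.integral_comp_comm (hI2.integrableOn (s := O))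
    simp only [Complex.reCLM_apply] at this
    rw [← this]
  rw [Complex.add_re, e2, e3, Complex.zero_re] at e1
  linarith

theorem lsy (hLVX : T_LVX) (hLIN : T_LIN) (hDIV : T_DIV) (hSMO : T_SMO) : T_LSY := by
  intro n O F φ g hO hF hdiv hφ hφc hφO hg
  have h0 : ∀ z ∉ tsupport φ, φ =ᶠ[𝓝 z] (fun _ => 0) := by
    intro z hz
    exact notMem_tsupport_iff_eventuallyEq.1 hz
  obtain ⟨a1, a2, a3⟩ := half_sym hLVX hLIN hDIV hSMO hO hφc hφO hF hdiv hφ.contDiffOn hg
    (fun z hz => Or.inl (h0 z hz))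
  obtain ⟨b1, b2, b3⟩ := half_sym hLVX hLIN hDIV hSMO hO hφc hφO hF hdiv hg hφ.contDiffOn
    (fun z hz => Or.inr (h0 z hz))
  refine ⟨a1, b1, ?_⟩
  rw [a3, b3]
  congr 1
  apply integral_congr_ae
  filter_upwards with z
  rw [← Complex.conj_re, map_mul, Complex.conj_conj, mul_comm]

end Pool.Agent.H73.VG
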