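import Pool.Agent.H95.VG.Targets1
import Pool.Agent.H95.VG.Targets3
import Pool.Agent.H73.VG.LIN

/-!
# MP_6803f2_an, module VEX (closed form with period `-flux`)
-/

open MeasureTheory Set Filter Topology
open scoped ENNReal NNReal ContDiff ComplexConjugate

namespace Pool.Agent.H73.VG

open Pool.Agent.H95.VG

variable {n : ℕ}

theorem continuous_fderiv_apply {g : V n → ℝ} (hg : ContDiff ℝ ∞ g) (v : V n) :
    Continuous (fun y => fderiv ℝ g y v) :=
  (hg.continuous_fderiv (by simp)).clm_apply continuous_const

theorem continuous_dr {g : V n → ℝ} (hg : ContDiff ℝ ∞ g) (v : V n) :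
    Continuous (fun y => dr g y v) := by
  unfold dr
  have h1 := continuous_fderiv_apply hg v
  have h2 := continuous_fderiv_apply hg (Complex.I • v)
  fun_prop

/-- the weights and their derivatives are bounded -/
theorem weight_bound {X : Type} [TopologicalSpace X] {ι : Type} [Fintype ι] {A : Atl n X ι}
    {w : ι → V n → ℝ} (hG : Gau A w) (a : ι) :
    ∃ C : ℝ, ∀ y, |w a y| ≤ C ∧ ‖fderiv ℝ (w a) y‖ ≤ C := by
  have hcs : HasCompactSupport (w a) := by
    apply HasCompactSupport.intro (isCompact_closedBall (0 : V n) (3 / 2))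
    intro y hy
    by_contra h
    exact hy (hG.supp a y h)
  obtain ⟨C1, hC1⟩ := hcs.exists_bound_of_continuous (hG.smooth a).continuous
  obtain ⟨C2, hC2⟩ := (hcs.fderiv (𝕜 := ℝ)).exists_bound_of_continuous
    ((hG.smooth a).continuous_fderiv (by simp))
  refine ⟨max C1 C2, fun y => ⟨?_, (hC2 y).trans (le_max_right _ _)⟩⟩
  exact (hC1 y).trans (le_max_left _ _)

theorem norm_dr_le (g : V n → ℝ) (y v : V n) : ‖dr g y v‖ ≤ ‖fderiv ℝ g y‖ * ‖v‖ := by
  unfold dr
  have h1 : ‖((fderiv ℝ g y v : ℝ) : ℂ)‖ ≤ ‖fderiv ℝ g y‖ * ‖v‖ := by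
    rw [Complex.norm_real]
    exact (fderiv ℝ g y).le_opNorm v
  have h2 : ‖Complex.I * ((fderiv ℝ g y (Complex.I • v) : ℝ) : ℂ)‖ ≤ ‖fderiv ℝ g y‖ * ‖v‖ := by
    rw [norm_mul, Complex.norm_I, one_mul, Complex.norm_real]
    refine ((fderiv ℝ g y).le_opNorm _).trans ?_
    rw [norm_smul, Complex.norm_I, one_mul]
  rw [norm_div]
  have h3 := norm_sub_le ((fderiv ℝ g y v : ℝ) : ℂ) (Complex.I * ((fderiv ℝ g y (Complex.I • v) : ℝ) : ℂ))
  have h4 : ‖(2 : ℂ)‖ = 2 := by simp
  rw [h4, div_le_iff₀ (by norm_num)]
  linarith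

/-- integral over `Dp \ I` of a function with the factor `Wt` is an integral over `Oa` -/
theorem wt_int {X : Type} [TopologicalSpace X] {ι : Type} [Fintype ι] {A : Atl n X ι}
    {w : ι → V n → ℝ} (hG : Gau A w) (f : V n → X) (I : Set (V n)) (a : ι)
    (hO : IsOpen (Oa A f I a)) (hD : IsOpen (Dp n \ I)) (g : V n → ℝ)
    (hg : IntegrableOn (fun z => w a (FF A f a z) * g z) (Oa A f I a)) :
    IntegrableOn (fun z => Wt A w a (f z) * g z) (Dp n \ I) ∧
      ∫ z in Dp n \ I, Wt A w a (f z) * g z = ∫ z in Oa A f I a, w a (FF A f a z) * g z := by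
  have h1 : ∀ z ∈ Dp n \ I, Wt A w a (f z) * g z =
      (Oa A f I a).indicator (fun z => w a (FF A f a z) * g z) z := by
    intro z hz
    unfold Wt
    by_cases hs : f z ∈ (A.φ a).source
    · rw [indicator_of_mem hs]
      by_cases hb : z ∈ Oa A f I a
      · rw [indicator_of_mem hb]
        rfl
      · rw [indicator_of_notMem hb]
        have : w a (A.φ a (f z)) = 0 := by
          by_contra h
          apply hb
          refine ⟨hz, hs, ?_⟩
          have := hG.supp a _ h
          rw [Metric.mem_closedBall] at this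
          rw [Metric.mem_ball]
          linarith
        rw [this, zero_mul]
    · rw [indicator_of_notMem hs]
      rw [indicator_of_notMem]
      · simp
      · intro hb
        exact hs hb.2.1
  have hsub : Oa A f I a ⊆ Dp n \ I := fun z hz => hz.1
  have h2 : IntegrableOn ((Oa A f I a).indicator (fun z => w a (FF A f a z) * g z)) (Dp n \ I) := by
    have := (integrable_indicator_iff hO.measurableSet).2 hg
    exact this.integrableOn
  constructor
  · exact h2.congr_fun (fun z hz => (h1 z hz).symm) hD.measurableSet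
  · rw [setIntegral_congr_fun hD.measurableSet h1, setIntegral_indicator hO.measurableSet,
      inter_eq_self_of_subset_right hsub]

theorem vex (hOAO : T_OAO) (hBY1 : T_BY1) (hPSH : T_PSH) (hWCA : T_WCA) (hCLH : T_CLH)
    (hKPV : T_KPV) (hCUT : T_CUT) : T_VEX := by
  intro n X _ _ _ ι _ A w f I hG hS
  obtain ⟨β, hβ⟩ := hPSH n X ι A f I hS
  obtain ⟨h0, F, hC, hFl, hFg, hFt⟩ := hCLH n X ι A β hβ.int
    (fun a => hWCA n X ι A f I β hS hβ a) hβ.trans
  have hk := hKPV n X ι A w β h0 F hG hC hβ.int hFl hFg hFt
  obtain ⟨hchi, hchic, hchi1, -⟩ := hCUT n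
  -- the support of the derivative of `chi`
  have hnsq : Continuous (nsq (n := n)) := by
    unfold nsq
    fun_prop
  have hfc : HasCompactSupport (fderiv ℝ (chi (n := n))) := hchic.fderiv (𝕜 := ℝ)
  have hts : tsupport (fderiv ℝ (chi (n := n))) ⊆ Dp n := by
    have h1 : tsupport (fderiv ℝ (chi (n := n))) ⊆ {z | 1 / 4 ≤ nsq z ∧ nsq z ≤ 1 / 2} := by
      apply closure_minimal
      · intro z hz
        rw [Function.mem_support] at hz
        constructor
        · by_contra hcon
          push Not at hcon
          apply hz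
          have : chi =ᶠ[𝓝 z] fun _ => (1 : ℝ) := by
            filter_upwards [(isOpen_lt hnsq continuous_const).mem_nhds hcon] with y hy
            exact (hchi1 y).2.2.1 (le_of_lt hy)
          rw [this.fderiv_eq]
          simp
        · by_contra hcon
          push Not at hcon
          apply hz
          have : chi =ᶠ[𝓝 z] fun _ => (0 : ℝ) := by
            filter_upwards [(isOpen_lt continuous_const hnsq).mem_nhds hcon] with y hy
            exact (hchi1 y).2.2.2 (le_of_lt hy)
          rw [this.fderiv_eq]
          simp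
      · exact (isClosed_le continuous_const hnsq).inter (isClosed_le hnsq continuous_const)
    intro z hz
    obtain ⟨h2, h3⟩ := h1 hz
    exact ⟨by linarith, by linarith⟩
  -- integration by parts
  have hby : ∀ (a : ι) (k : Fin n),
      IntegrableOn (fun z => w a (FF A f a z) * lev chi z (cf (FF A f a) k z)) (Oa A f I a) ∧
      IntegrableOn (fun z => (dr chi z (cf (FF A f a) k z) * conj ((jac (FF A f a) z).det *
        dr (w a) (FF A f a z) (ek k))).re) (Oa A f I a) ∧
      ∫ z in Oa A f I a, w a (FF A f a z) * lev chi z (cf (FF A f a) k z)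
      = - ∫ z in Oa A f I a, (dr chi z (cf (FF A f a) k z) * conj ((jac (FF A f a) z).det *
        dr (w a) (FF A f a z) (ek k))).re := by
    intro a k
    obtain ⟨C, hCb⟩ := weight_bound hG a
    exact hBY1 n X ι A f I hS a k chi (fun y _ => w a y) (fun _ => 0) (3 / 2) (by norm_num)
      (hchi.of_le (WithTop.coe_le_coe.2 le_top)) hfc hts
      (fun z _ => Filter.Eventually.of_forall (fun _ => rfl))
      (fun _ => (hG.smooth a).of_le (WithTop.coe_le_coe.2 le_top))
      (fun y _ h => hG.supp a y h) ⟨C, fun y _ => hCb y⟩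
  -- the period
  have hterm : ∀ a, ∫ y in Metric.ball (0 : V n) 2,
      ∑ k, (b10 (β a y) (ek k) * conj (dr (w a) y (ek k))).re =
      -∑ k, ∫ z in Oa A f I a, w a (FF A f a z) * lev chi z (cf (FF A f a) k z) := by
    intro a
    obtain ⟨C, hCb⟩ := weight_bound hG a
    have hcont : ∀ k : Fin n, Continuous (fun y => conj (dr (w a) y (ek k))) := fun k =>
      Complex.continuous_conj.comp (continuous_dr (hG.smooth a) (ek k))
    have hbdd : ∀ (k : Fin n) y, ‖conj (dr (w a) y (ek k))‖ ≤ C * ‖(ek k : V n)‖ := by
      intro k y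
      rw [RCLike.norm_conj]
      exact (norm_dr_le (w a) y (ek k)).trans
        (mul_le_mul_of_nonneg_right (hCb y).2 (norm_nonneg _))
    have hint : ∀ k : Fin n, IntegrableOn (fun y => conj (dr (w a) y (ek k)) * b10 (β a y) (ek k))
        (Metric.ball (0 : V n) 2) := by
      intro k
      have h1 : IntegrableOn (fun y => b10 (β a y) (ek k)) (Metric.ball (0 : V n) 2) := by
        unfold b10
        have h2 : Integrable (fun y => β a y (ek k)) (volume.restrict (Metric.ball (0 : V n) 2)) :=
          (hβ.int a).apply_continuousLinearMap (ek k)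
        have h3 : Integrable (fun y => β a y (Complex.I • ek k))
            (volume.restrict (Metric.ball (0 : V n) 2)) :=
          (hβ.int a).apply_continuousLinearMap (Complex.I • ek k)
        exact ((h2.ofReal.sub (h3.ofReal.const_mul Complex.I)).div_const 2)
      exact Integrable.bdd_mul h1 (hcont k).aestronglyMeasurable
        (Filter.Eventually.of_forall (hbdd k))
    have e1 : ∀ k : Fin n, ∫ y in Metric.ball (0 : V n) 2,
        (b10 (β a y) (ek k) * conj (dr (w a) y (ek k))).re =
        -∫ z in Oa A f I a, w a (FF A f a z) * lev chi z (cf (FF A f a) k z) := by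
      intro k
      obtain ⟨i1, e2⟩ := hβ.push a k (fun y => conj (dr (w a) y (ek k))) (hcont k)
        ⟨_, hbdd k⟩
      obtain ⟨-, i2, e3⟩ := hby a k
      rw [e3, neg_neg]
      have e4 : ∫ y in Metric.ball (0 : V n) 2,
          (b10 (β a y) (ek k) * conj (dr (w a) y (ek k))).re =
          (∫ y in Metric.ball (0 : V n) 2, conj (dr (w a) y (ek k)) * b10 (β a y) (ek k)).re := by
        have := Complex.reCLM.integral_comp_comm (hint k)
        simp only [Complex.reCLM_apply] at this
        rw [← this]
        apply integral_congr_ae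
        filter_upwards with y
        rw [mul_comm]
      rw [e4, e2]
      have e5 := Complex.reCLM.integral_comp_comm i1
      simp only [Complex.reCLM_apply] at e5
      rw [← e5]
      apply integral_congr_ae
      filter_upwards with z
      rw [map_mul]
      congr 1
      ring
    rw [integral_finsetSum]
    · rw [Finset.sum_congr rfl (fun k _ => e1 k), Finset.sum_neg_distrib]
    · intro k _
      have h2 := (hint k).re
      refine h2.congr ?_
      filter_upwards with y
      rw [mul_comm]
      rfl
  have hDo : IsOpen (Dp n \ I) := hS.opn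
  have hflux : ∫ z in Dp n \ I, LL A w f chi z =
      ∑ a, ∑ k, ∫ z in Oa A f I a, w a (FF A f a z) * lev chi z (cf (FF A f a) k z) := by
    have e1 : ∀ z, LL A w f chi z =
        ∑ a, ∑ k, Wt A w a (f z) * lev chi z (cf (FF A f a) k z) := by
      intro z
      unfold LL
      apply Finset.sum_congr rfl
      intro a _
      rw [Finset.mul_sum]
    simp only [e1]
    have hw : ∀ a k, IntegrableOn (fun z => Wt A w a (f z) * lev chi z (cf (FF A f a) k z))
        (Dp n \ I) ∧ ∫ z in Dp n \ I, Wt A w a (f z) * lev chi z (cf (FF A f a) k z) =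
          ∫ z in Oa A f I a, w a (FF A f a z) * lev chi z (cf (FF A f a) k z) := fun a k =>
      wt_int hG f I a (hOAO n X ι A f I hS a).1 hDo (fun z => lev chi z (cf (FF A f a) k z))
        (hby a k).1
    rw [integral_finsetSum _ (fun a _ => integrable_finsetSum _ (fun k _ => (hw a k).1))]
    apply Finset.sum_congr rfl
    intro a _
    rw [integral_finsetSum _ (fun k _ => (hw a k).1)]
    exact Finset.sum_congr rfl (fun k _ => (hw a k).2)
  have hkap : kap w h0 = flux A w f I := by
    rw [hk, Finset.sum_congr rfl (fun a _ => hterm a), Finset.sum_neg_distrib]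
    unfold flux
    rw [hflux]
  refine ⟨fun a y => -h0 a y, ⟨fun a => (hC.smooth a).neg, ?_⟩, ?_⟩
  · intro a b x hx1 hx2 hx3 hx4
    filter_upwards [hC.compat a b x hx1 hx2 hx3 hx4] with x' hx'
    linarith
  · rw [← hkap]
    unfold kap
    rw [← Finset.sum_neg_distrib]
    apply Finset.sum_congr rfl
    intro a _
    rw [← integral_neg]
    apply integral_congr_ae
    filter_upwards with y
    rw [← Finset.sum_neg_distrib]
    apply Finset.sum_congr rfl
    intro k _
    have : dr (fun y => -h0 a y) y (ek k) = -dr (h0 a) y (ek k) := by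
      unfold dr
      have e : fderiv ℝ (fun y => -h0 a y) y = -fderiv ℝ (h0 a) y := fderiv_fun_neg
      rw [e]
      simp only [neg_apply, Complex.ofReal_neg]
      ring
    rw [this, neg_mul, Complex.neg_re]

end Pool.Agent.H73.VG
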