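import Pool.Agent.H73.VG.IDN
import Pool.Agent.H73.VG.LSY
import Pool.Agent.H73.VG.VEX

/-!
# MP_6803f2_an, module KBD (the coefficients `k1`, `k2`)
-/

open MeasureTheory Set Filter Topology
open scoped ENNReal NNReal ContDiff ComplexConjugate

namespace Pool.Agent.H73.VG

open Pool.Agent.H95.VG

variable {n : ℕ}

theorem continuous_lev {g : V n → ℝ} (hg : ContDiff ℝ ∞ g) (v : V n) :
    Continuous (fun y => lev g y v) := by
  have h := lev_continuousOn (O := univ) (F := fun _ => v) isOpen_univ
    ((hg.of_le (WithTop.coe_le_coe.2 le_top)).contDiffOn) continuousOn_const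
  exact continuousOn_univ.1 h

theorem continuous_ge {g : V n → ℝ} (hg : ContDiff ℝ ∞ g) (v : V n) :
    Continuous (fun y => ge g y v) := by
  unfold ge
  exact (continuous_dr hg v).norm.pow 2

theorem kbd (hLVX : T_LVX) (hLIN : T_LIN) (hDIV : T_DIV) (hSMO : T_SMO) (hRNC : T_RNC) :
    T_KBD := by
  intro n X _ _ _ ι _ A w h hw hC
  have hHex := fun a => smooth_ext (hC.smooth a)
  choose H hHs hHc hHe using hHex
  have hloc : ∀ a, ∀ y ∈ Metric.closedBall (0 : V n) (3 / 2), H a =ᶠ[𝓝 y] h a := by
    intro a y hy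
    have : Metric.ball (0 : V n) (7 / 4) ∈ 𝓝 y :=
      Metric.isOpen_ball.mem_nhds (Metric.closedBall_subset_ball (by norm_num) hy)
    filter_upwards [this] with y' hy'
    exact hHe a y' hy'
  have hwz : ∀ a, ∀ y ∉ Metric.closedBall (0 : V n) (3 / 2), w a =ᶠ[𝓝 y] fun _ => 0 := by
    intro a y hy
    filter_upwards [Metric.isClosed_closedBall.isOpen_compl.mem_nhds hy] with y' hy'
    by_contra hne
    exact hy' (hw.supp a y' hne)
  have hcross : ∀ a y k, (dr (h a) y (ek k) * conj (dr (w a) y (ek k))).re =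
      (dr (H a) y (ek k) * conj (dr (w a) y (ek k))).re := by
    intro a y k
    by_cases hy : y ∈ Metric.closedBall (0 : V n) (3 / 2)
    · rw [dr_congr (hloc a y hy)]
    · rw [dr_congr (hwz a y hy), dr_zero']
      simp
  have hk1 : ∀ a, k1 w h a = fun y => ∑ k, (w a y * lev (H a) y (ek k) +
      2 * (dr (H a) y (ek k) * conj (dr (w a) y (ek k))).re) := by
    intro a
    funext y
    unfold k1
    refine Finset.sum_congr rfl (fun k _ => ?_)
    rw [hcross]
    by_cases hy : y ∈ Metric.closedBall (0 : V n) (3 / 2)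
    · rw [lev_congr (hloc a y hy)]
    · rw [(hwz a y hy).eq_of_nhds, zero_mul, zero_mul]
  have hk2 : ∀ a, k2 w h a = fun y => w a y * ∑ k, ge (H a) y (ek k) := by
    intro a
    funext y
    unfold k2
    by_cases hy : y ∈ Metric.closedBall (0 : V n) (3 / 2)
    · congr 1
      refine Finset.sum_congr rfl (fun k _ => ?_)
      rw [ge_congr (hloc a y hy)]
    · rw [(hwz a y hy).eq_of_nhds, zero_mul, zero_mul]
  have hcr : ∀ a k, Continuous (fun y => (dr (H a) y (ek k) * conj (dr (w a) y (ek k))).re) := by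
    intro a k
    exact Complex.continuous_re.comp ((continuous_dr (hHs a) (ek k)).mul
      (Complex.continuous_conj.comp (continuous_dr (hw.smooth a) (ek k))))
  have hwl : ∀ a k, Continuous (fun y => w a y * lev (H a) y (ek k)) := fun a k =>
    (hw.smooth a).continuous.mul (continuous_lev (hHs a) (ek k))
  have c1 : ∀ a, Continuous (k1 w h a) := by
    intro a
    rw [hk1]
    exact continuous_finsetSum _ (fun k _ => (hwl a k).add (continuous_const.mul (hcr a k)))
  have c2 : ∀ a, Continuous (k2 w h a) := by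
    intro a
    rw [hk2]
    exact (hw.smooth a).continuous.mul
      (continuous_finsetSum _ (fun k _ => continuous_ge (hHs a) (ek k)))
  have s1 : ∀ a y, k1 w h a y ≠ 0 → y ∈ Metric.closedBall (0 : V n) (3 / 2) := by
    intro a y hy
    by_contra hcon
    apply hy
    rw [hk1]
    refine Finset.sum_eq_zero (fun k _ => ?_)
    rw [dr_congr (hwz a y hcon), dr_zero', (hwz a y hcon).eq_of_nhds]
    simp
  have s2 : ∀ a y, k2 w h a y ≠ 0 → y ∈ Metric.closedBall (0 : V n) (3 / 2) := by
    intro a y hy
    by_contra hcon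
    apply hy
    rw [hk2]
    change w a y * _ = 0
    rw [(hwz a y hcon).eq_of_nhds, zero_mul]
  refine ⟨fun a => ⟨c1 a, c2 a⟩, fun a y hy => hy.elim (s1 a y) (s2 a y), ?_, ?_⟩
  · unfold kap
    refine Finset.sum_congr rfl (fun a _ => ?_)
    have hcomp : HasCompactSupport (w a) :=
      HasCompactSupport.of_support_subset_isCompact (isCompact_closedBall (0 : V n) (3 / 2))
        (fun y hy => hw.supp a y hy)
    have hhalf := fun k : Fin n => half_sym hLVX hLIN hDIV hSMO (O := univ) (K := tsupport (w a))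
      (F := fun _ => ek k) (φ := w a) (g := H a) isOpen_univ hcomp (subset_univ _)
      (differentiableOn_const _) (fun z _ => Finset.sum_eq_zero (fun i _ => by simp))
      ((hw.smooth a).of_le (WithTop.coe_le_coe.2 le_top)).contDiffOn
      ((hHs a).of_le (WithTop.coe_le_coe.2 le_top)).contDiffOn
      (fun z hz => Or.inl (notMem_tsupport_iff_eventuallyEq.1 hz))
    have hi1 : ∀ k : Fin n, Integrable (fun y => w a y * lev (H a) y (ek k)) := fun k =>
      integrableOn_univ.1 (hhalf k).1
    have hi2 : ∀ k : Fin n, Integrable (fun y =>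
        (dr (H a) y (ek k) * conj (dr (w a) y (ek k))).re) := fun k =>
      integrableOn_univ.1 (hhalf k).2.1
    have he : ∀ k : Fin n, ∫ y, w a y * lev (H a) y (ek k) =
        - ∫ y, (dr (H a) y (ek k) * conj (dr (w a) y (ek k))).re := by
      intro k
      have := (hhalf k).2.2
      rw [setIntegral_univ, setIntegral_univ] at this
      exact this
    rw [hk1]
    have e1 : ∫ y, ∑ k, (w a y * lev (H a) y (ek k) +
        2 * (dr (H a) y (ek k) * conj (dr (w a) y (ek k))).re) =
        ∑ k, ∫ y, (dr (H a) y (ek k) * conj (dr (w a) y (ek k))).re := by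
      have hi3 : ∀ k : Fin n, Integrable (fun y => w a y * lev (H a) y (ek k) +
          2 * (dr (H a) y (ek k) * conj (dr (w a) y (ek k))).re) := fun k =>
        (hi1 k).add ((hi2 k).const_mul 2)
      rw [integral_finsetSum _ (fun k _ => hi3 k)]
      refine Finset.sum_congr rfl (fun k _ => ?_)
      rw [integral_add (hi1 k) ((hi2 k).const_mul 2), he k, integral_const_mul]
      ring
    rw [e1, ← integral_finsetSum _ (fun k _ => hi2 k)]
    apply integral_congr_ae
    filter_upwards with y
    exact Finset.sum_congr rfl (fun k _ => (hcross a y k).symm)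
  · obtain ⟨-, ⟨C1, hC1⟩, -, -, hP1⟩ := hRNC n X ι A w (k1 w h) hw c1 s1
    obtain ⟨-, ⟨C2, hC2⟩, -, -, hP2⟩ := hRNC n X ι A w (k2 w h) hw c2 s2
    refine ⟨max C1 C2, fun f I hS z hz => ?_⟩
    have hpos : 0 ≤ PB A f w z := by
      unfold PB
      refine Finset.sum_nonneg (fun a _ => mul_nonneg ?_ (by positivity))
      unfold Wt
      by_cases hs : f z ∈ (A.φ a).source
      · rw [indicator_of_mem hs]
        exact hw.nonneg a _
      · rw [indicator_of_notMem hs]
    constructor
    · rw [hP1 f I hS z hz, abs_mul, abs_of_nonneg hpos]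
      exact mul_le_mul_of_nonneg_right ((hC1 _).trans (le_max_left _ _)) hpos
    · rw [hP2 f I hS z hz, abs_mul, abs_of_nonneg hpos]
      exact mul_le_mul_of_nonneg_right ((hC2 _).trans (le_max_right _ _)) hpos

end Pool.Agent.H73.VG
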