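import Pool.Agent.H95.VG.Targets1
import Pool.Agent.H95.VG.Targets5

/-!
# MP_6803f2_an, module LGG (logarithms of vector valued holomorphic maps)
-/

open MeasureTheory Set Filter Topology
open scoped ENNReal NNReal ContDiff ComplexConjugate

namespace Pool.Agent.H73.VG

open Pool.Agent.H95.VG

theorem lgg (hNSQ : T_NSQ) (hCHG : T_CHG) (hSMO : T_SMO) : T_LGG := by
  intro n m O g hO hg
  obtain ⟨-, hlu, hz, -, hlev, -⟩ := hNSQ m
  have hpos : ∀ z, g z ≠ 0 → 0 < nsq (g z) := by
    intro z hgz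
    have h1 : 0 ≤ nsq (g z) := by
      unfold nsq
      positivity
    exact lt_of_le_of_ne h1 (fun h => hgz ((hz _).1 h.symm))
  have hopen : IsOpen {y : V m | 0 < nsq y} := by
    have hc : Continuous (nsq (n := m)) := by
      unfold nsq
      fun_prop
    exact isOpen_lt continuous_const hc
  have hgs : ContDiffOn ℝ ∞ g O := (hSMO n (V m) O g hO hg).2.1
  have hfun : (fun z => Real.log (nsq (g z)) / 2) = fun z => lu (g z) := rfl
  refine ⟨?_, ?_⟩
  · rw [hfun]
    exact hlu.comp (hgs.mono inter_subset_left) (fun z hz' => hpos z hz'.2)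
  · intro z hzO hgz v
    rw [hfun]
    have h1 : ContDiffAt ℝ 2 lu (g z) :=
      (hlu.contDiffAt (hopen.mem_nhds (hpos z hgz))).of_le (WithTop.coe_le_coe.2 le_top)
    rw [(hCHG n m O g hO hg z hzO v).2 lu h1]
    exact (hlev (g z) (fderiv ℂ g z v) (hpos z hgz)).1

end Pool.Agent.H73.VG
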